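import Pool.Agent.H72Pen.LogBasis

/-!
# The two cases
-/

set_option autoImplicit false

noncomputable section

namespace Pool.Agent.H72Pen

open IsLocalRing Pool.Agent.H72Acc

variable {k K : Type} [Field k] [Field K] [Algebra k K] {d e : ℕ}

theorem val_intCast [CharZero k] {v : AddValuation K (WithTop ℤ)}
    (hv : DV k v) {n : ℤ} (hn : n ≠ 0) : v (n : K) = 0 := by
  have h1 : (n : K) = algebraMap k K (n : k) := by
    rw [map_intCast]
  rw [h1]
  exact val_const hv (Int.cast_ne_zero.2 hn)

theorem val_jac_cons [CharZero k] {F : Frame k K (e + 1)} {v : AddValuation K (WithTop ℤ)}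
    (hv : DV k v) {a : ℤ} (ha : CanOrd F v a) {π : K} {y : Fin e → K} (hπ : v π = 1)
    (hy : ∀ j, v (y j) = 0)
    (hjac : v (F.jac (Fin.cons π y : Fin (e + 1) → K)) = ((-a : ℤ) : WithTop ℤ))
    {w : K} {n : ℤ} (hn : n ≠ 0) (hw : v w = ((n : ℤ) : WithTop ℤ)) :
    v (F.jac (Fin.cons w y : Fin (e + 1) → K)) = ((n - a - 1 : ℤ) : WithTop ℤ) := by
  classical
  have hπ0 := pi_ne_zero hπ
  obtain ⟨u, hu⟩ : ∃ u, u = w * π ^ (-n) := ⟨_, rfl⟩
  have hwu : w = π ^ n * u := by
    rw [hu, mul_comm w, ← mul_assoc, ← zpow_add₀ hπ0, add_neg_cancel, zpow_zero, one_mul]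
  have hvu : v u = 0 := by
    rw [hu, v.map_mul, val_zpow hπ, hw, ← WithTop.coe_add, add_neg_cancel]
    rfl
  have h1 : (Fin.cons w y : Fin (e + 1) → K) = fun j =>
      π ^ (Fin.cons n (fun _ => 0) : Fin (e + 1) → ℤ) j * (Fin.cons u y : Fin (e + 1) → K) j := by
    funext j
    refine Fin.cases ?_ (fun i => ?_) j
    · rw [Fin.cons_zero, Fin.cons_zero, Fin.cons_zero, hwu]
    · rw [Fin.cons_succ, Fin.cons_succ, Fin.cons_succ, zpow_zero, one_mul]
  rw [h1, jac_eq_wedge, wedge_pi hπ0, Fin.sum_univ_succ, Fin.prod_univ_succ]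
  simp only [Fin.cons_zero, Fin.cons_succ, Int.cast_zero, zero_mul, Finset.sum_const_zero,
    add_zero, zpow_zero, Finset.prod_const_one, mul_one, Fin.update_cons_zero]
  rw [← jac_eq_wedge, ← jac_eq_wedge]
  have h2 : v ((n : K) * u * π ^ (-1 : ℤ) * F.jac (Fin.cons π y : Fin (e + 1) → K)) =
      ((-a - 1 : ℤ) : WithTop ℤ) := by
    rw [v.map_mul, v.map_mul, v.map_mul, val_intCast hv hn, hvu, val_zpow hπ, hjac,
      zero_add, zero_add, ← WithTop.coe_add]
    congr 1
    ring
  have h3 : ((-a : ℤ) : WithTop ℤ) ≤ v (F.jac (Fin.cons u y : Fin (e + 1) → K)) := by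
    refine ha.1 _ fun j => ?_
    refine Fin.cases ?_ (fun i => ?_) j
    · rw [Fin.cons_zero, hvu]
    · rw [Fin.cons_succ, hy]
  rw [v.map_mul, v.map_add_eq_of_lt_right, h2, val_zpow hπ, ← WithTop.coe_add]
  · congr 1
    ring
  · rw [h2]
    exact lt_of_lt_of_le (WithTop.coe_lt_coe.2 (by omega)) h3

theorem val_aeval_nonneg {v : AddValuation K (WithTop ℤ)}
    (hv : DV k v) {n : ℕ} {x : Fin n → K} (hx : ∀ j, 0 ≤ v (x j))
    (P : MvPolynomial (Fin n) k) : 0 ≤ v (MvPolynomial.aeval x P) := by
  rw [MvPolynomial.aeval_def, MvPolynomial.eval₂_eq']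
  refine v.map_le_sum fun m _ => ?_
  rw [v.map_mul, val_prod]
  refine add_nonneg (hv.const _) (Finset.sum_nonneg fun j _ => ?_)
  rw [v.map_pow]
  exact nsmul_nonneg (hx j) _

theorem val_poly [IsAlgClosed k] {v : AddValuation K (WithTop ℤ)}
    (hv : DV k v) {f : K} (hf : ∀ c : k, v (f - algebraMap k K c) = 0) :
    ∀ (n : ℕ) (Q : Polynomial k), Q ≠ 0 → Q.natDegree = n → v (Polynomial.aeval f Q) = 0 := by
  intro n
  induction n with
  | zero =>
    intro Q hQ hn
    obtain ⟨c, hc⟩ := Polynomial.natDegree_eq_zero.1 hn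
    rw [← hc, Polynomial.aeval_C]
    refine val_const hv fun h => hQ ?_
    rw [← hc, h, map_zero]
  | succ n ih =>
    intro Q hQ hn
    obtain ⟨r, hr⟩ := IsAlgClosed.exists_root Q (by
      intro h
      have h1 := Polynomial.natDegree_eq_zero_iff_degree_le_zero.2 h.le
      omega)
    obtain ⟨R, hR⟩ := Polynomial.dvd_iff_isRoot.2 hr
    have hR0 : R ≠ 0 := by
      rintro rfl
      exact hQ (by rw [hR, mul_zero])
    have hdeg : R.natDegree = n := by
      have h1 := Polynomial.natDegree_mul (Polynomial.X_sub_C_ne_zero r) hR0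
      rw [← hR, hn, Polynomial.natDegree_X_sub_C] at h1
      omega
    rw [hR, map_mul, v.map_mul, ih R hR0 hdeg, map_sub, Polynomial.aeval_X, Polynomial.aeval_C,
      hf, zero_add]

theorem exists_transverse [CharZero k] [IsAlgClosed k] {F : Frame k K (e + 1)}
    {v : AddValuation K (WithTop ℤ)} (hv : DV k v) {a : ℤ} (ha : CanOrd F v a) {f : K}
    (hf : ∀ c : k, v (f - algebraMap k K c) = 0) :
    ∃ h : Fin e → K, (∀ j, 0 ≤ v (h j)) ∧ (∃ j, 0 < v (h j)) ∧
      v (F.jac (Fin.cons f h : Fin (e + 1) → K)) = ((-a : ℤ) : WithTop ℤ) := by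
  classical
  by_contra hcon
  push Not at hcon
  obtain ⟨π, y, hπ, hy, hjac⟩ := exists_log_basis hv ha
  have hvf : v f = 0 := by
    have h1 := hf 0
    rwa [map_zero, sub_zero] at h1
  obtain ⟨x, hx⟩ : ∃ x : Fin (e + 1) → K, x = Fin.cons π y := ⟨_, rfl⟩
  obtain ⟨Y, hY⟩ : ∃ Y : Fin (e + 1) → K, Y = Fin.cons f y := ⟨_, rfl⟩
  rw [← hx] at hjac
  have hjac0 : F.jac x ≠ 0 := by
    intro h
    rw [h, v.map_zero] at hjac
    exact WithTop.top_ne_coe hjac
  have hY0 : ∀ j, 0 ≤ v (Y j) := by
    intro j
    rw [hY]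
    refine Fin.cases ?_ (fun i => ?_) j
    · rw [Fin.cons_zero, hvf]
    · rw [Fin.cons_succ, hy]
  have hx0 : ∀ j, 0 ≤ v (x j) := by
    intro j
    rw [hx]
    refine Fin.cases ?_ (fun i => ?_) j
    · rw [Fin.cons_zero, hπ]
      exact zero_le_one
    · rw [Fin.cons_succ, hy]
  refine false_of_triv F.trdeg hv.surj Y fun P hP =>
    le_antisymm (not_lt.1 fun hlt => ?_) (val_aeval_nonneg hv hY0 P)
  obtain ⟨Q, hQ0, hQ, hQd⟩ := exists_pderiv_zero
    hv.const Y hY0 {j | j ≠ 0} (dual F x)
    (fun j hj g hg => by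
      rw [dual_apply]
      refine val_inv_mul_pos hjac ?_
      refine le_trans ?_ (log_le hv.surj ha _)
      have hg1 : ((1 : ℤ) : WithTop ℤ) ≤ v g := by
        rcases eq_or_ne (v g) ⊤ with h4 | h4
        · rw [h4]
          exact le_top
        · obtain ⟨z, hz⟩ := WithTop.ne_top_iff_exists.1 h4
          rw [← hz] at hg ⊢
          have h5 : 0 < z := WithTop.coe_lt_coe.1 hg
          exact WithTop.coe_le_coe.2 (by omega)
      have h1 : ((1 : ℤ) : WithTop ℤ) + ((1 : ℤ) : WithTop ℤ) ≤
          ∑ i, v (Function.update x j g i) := by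
        have h2 : v (Function.update x j g 0) + v (Function.update x j g j) ≤
            ∑ i, v (Function.update x j g i) := by
          rw [← Finset.sum_pair (f := fun i => v (Function.update x j g i)) (Ne.symm hj)]
          refine Finset.sum_le_sum_of_subset_of_nonneg (Finset.subset_univ _) fun i _ _ => ?_
          by_cases hi : i = j
          · rw [hi, Function.update_self]
            exact hg.le
          · rw [Function.update_of_ne hi]
            exact hx0 i
        refine le_trans ?_ h2
        rw [Function.update_self, Function.update_of_ne (Ne.symm hj), hx, Fin.cons_zero, hπ]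
        exact add_le_add le_rfl hg1
      refine le_trans (le_of_eq ?_) (add_le_add h1 le_rfl)
      rw [← WithTop.coe_add, ← WithTop.coe_add]
      congr 1
      ring)
    (fun j hj i => by
      refine Fin.cases ?_ (fun i' => ?_) i
      · rw [if_neg hj, sub_zero, hY, Fin.cons_zero, dual_apply]
        obtain ⟨j', rfl⟩ := Fin.exists_succ_eq_of_ne_zero hj
        refine val_inv_mul_pos hjac ?_
        have h1 : Function.update x j'.succ f = fun i =>
            (Fin.cons f (Function.update y j' π) : Fin (e + 1) → K)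
              (Equiv.swap 0 j'.succ i) := by
          funext i
          by_cases hi : i = 0
          · rw [hi, Equiv.swap_apply_left, Fin.cons_succ, Function.update_self,
              Function.update_of_ne (Fin.succ_ne_zero j').symm, hx, Fin.cons_zero]
          · by_cases hi2 : i = j'.succ
            · rw [hi2, Equiv.swap_apply_right, Fin.cons_zero, Function.update_self]
            · rw [Equiv.swap_apply_of_ne_of_ne hi hi2, Function.update_of_ne hi2, hx]
              obtain ⟨i', rfl⟩ := Fin.exists_succ_eq_of_ne_zero hi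
              rw [Fin.cons_succ, Fin.cons_succ, Function.update_of_ne]
              rintro rfl
              exact hi2 rfl
        rw [h1, val_jac_perm]
        have h2 : ∀ l, 0 ≤ v (Function.update y j' π l) := by
          intro l
          by_cases hl : l = j'
          · rw [hl, Function.update_self, hπ]
            exact zero_le_one
          · rw [Function.update_of_ne hl, hy]
        refine lt_of_ge_ne (ha.1 _ fun l => ?_) (hcon _ h2 ⟨j', ?_⟩)
        · refine Fin.cases ?_ (fun i => ?_) l
          · rw [Fin.cons_zero, hvf]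
          · rw [Fin.cons_succ]
            exact h2 i
        · rw [Function.update_self, hπ]
          exact zero_lt_one
      · have h1 : Y i'.succ = x i'.succ := by
          rw [hY, hx, Fin.cons_succ, Fin.cons_succ]
        rw [h1, dual_self hjac0, sub_self, v.map_zero]
        exact WithTop.coe_lt_top _) P hP hlt
  have hsupp : ∀ m ∈ Q.support, ∀ j : Fin e, m j.succ = 0 := fun m hm j =>
    support_of_pderiv (hQd j.succ (Fin.succ_ne_zero j)) hm
  obtain ⟨R, hR⟩ : ∃ R : Polynomial k,
      R = ∑ m ∈ Q.support, Polynomial.monomial (m 0) (Q.coeff m) := ⟨_, rfl⟩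
  have hR1 : Polynomial.aeval f R = MvPolynomial.aeval Y Q := by
    rw [hR, map_sum, MvPolynomial.aeval_def, MvPolynomial.eval₂_eq']
    refine Finset.sum_congr rfl fun m hm => ?_
    rw [Polynomial.aeval_monomial, Fin.prod_univ_succ, hY, Fin.cons_zero]
    congr 1
    rw [Finset.prod_eq_one, mul_one]
    intro j _
    rw [hsupp m hm j, pow_zero]
  have hR0 : R ≠ 0 := by
    obtain ⟨m0, hm0⟩ := MvPolynomial.support_nonempty.2 hQ0
    intro hzero
    have h1 : R.coeff (m0 0) = Q.coeff m0 := by
      rw [hR, Polynomial.finsetSum_coeff, Finset.sum_eq_single m0]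
      · rw [Polynomial.coeff_monomial, if_pos rfl]
      · intro m hm hne
        rw [Polynomial.coeff_monomial, if_neg]
        intro h
        refine hne (Finsupp.ext fun j => ?_)
        refine Fin.cases h (fun i => ?_) j
        rw [hsupp m hm i, hsupp m0 hm0 i]
      · intro h
        exact absurd hm0 h
    rw [hzero, Polynomial.coeff_zero] at h1
    exact MvPolynomial.mem_support_iff.1 hm0 h1.symm
  rw [← hR1, val_poly hv hf _ R hR0 rfl] at hQ
  exact lt_irrefl _ hQ

end Pool.Agent.H72Pen
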