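import Pool.Agent.H72Pen.Cases

/-!
# The order of the vector of a foliation with a rational first integral along a divisor
-/

set_option autoImplicit false

noncomputable section

namespace Pool.Agent.H72Pen

open IsLocalRing Pool.Agent.H72Acc

variable {k K : Type} [Field k] [Field K] [Algebra k K] {d e : ℕ}

/-- The Jacobian as a derivation of the first function. -/
def firstDer (F : Frame k K (e + 1)) (h : Fin e → K) : Derivation k K K :=
  ∑ i, (Matrix.of fun i j : Fin (e + 1) =>
    F.der i ((Fin.cons 0 h : Fin (e + 1) → K) j)).adjugate 0 i • F.der i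

theorem firstDer_apply (F : Frame k K (e + 1)) (h : Fin e → K) (y : K) :
    firstDer F h y = F.jac (Fin.cons y h : Fin (e + 1) → K) := by
  classical
  unfold firstDer
  obtain ⟨x, hx⟩ : ∃ x : Fin (e + 1) → K, x = Fin.cons 0 h := ⟨_, rfl⟩
  rw [← hx]
  have h1 : (∑ i, (Matrix.of fun i j : Fin (e + 1) => F.der i (x j)).adjugate 0 i • F.der i) y =
      ∑ i, (Matrix.of fun i j : Fin (e + 1) => F.der i (x j)).adjugate 0 i * F.der i y := by
    rw [← Derivation.coeFnAddMonoidHom_apply, map_sum, Finset.sum_apply]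
    rfl
  rw [h1]
  have h2 := Matrix.cramer_eq_adjugate_mulVec (Matrix.of fun i j : Fin (e + 1) => F.der i (x j))
    (fun i => F.der i y)
  have h3 := congrFun h2 0
  rw [Matrix.cramer_apply, Matrix.mulVec, dotProduct] at h3
  rw [← h3]
  have h4 : (Fin.cons y h : Fin (e + 1) → K) = Function.update x 0 y := by
    rw [hx, Fin.update_cons_zero]
  rw [h4]
  unfold Frame.jac
  congr 1
  ext i l
  rw [Matrix.updateCol_apply, Matrix.of_apply, Matrix.of_apply]
  by_cases hl : l = 0
  · rw [if_pos hl, hl, Function.update_self]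
  · rw [if_neg hl, Function.update_of_ne hl]

theorem ord_case1 [CharZero k] {F : Frame k K (e + 1)} {v : AddValuation K (WithTop ℤ)}
    (hv : DV k v) {a : ℤ} (ha : CanOrd F v a) {η : (Fin e → K) → K} {c w : K} {n : ℤ}
    (hη : ∀ h, η h = c * F.jac (Fin.cons w h : Fin (e + 1) → K))
    (hc : v c = 0) (hn : n ≠ 0) (hw : v w = ((n : ℤ) : WithTop ℤ)) :
    OrdR v η (n - a - 1) ∧ epsR v η (n - a - 1) = 0 := by
  classical
  have hge : ∀ h : Fin e → K,
      ∑ j, v (h j) + ((n - a - 1 : ℤ) : WithTop ℤ) ≤ v (η h) := by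
    intro h
    rw [hη, v.map_mul, hc, zero_add]
    refine le_trans (le_of_eq ?_) (log_le hv.surj ha _)
    rw [Fin.sum_univ_succ]
    simp only [Fin.cons_zero, Fin.cons_succ]
    rw [hw, add_comm ((n : ℤ) : WithTop ℤ), add_assoc, ← WithTop.coe_add]
    congr 2
    ring
  refine ⟨⟨fun h hh => ?_, fun m hm => ?_⟩, if_pos fun h hh ⟨j, hj⟩ => ?_⟩
  · exact (le_add_of_nonneg_left (Finset.sum_nonneg fun j _ => hh j)).trans (hge h)
  · obtain ⟨π, y, hπ, hy, hjac⟩ := exists_log_basis hv ha
    have h1 := hm y fun j => (hy j).ge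
    rw [hη, v.map_mul, hc, zero_add, val_jac_cons hv ha hπ hy hjac hn hw] at h1
    exact WithTop.coe_le_coe.1 h1
  · refine lt_of_lt_of_le ?_ (hge h)
    have h2 : 0 < ∑ j, v (h j) :=
      lt_of_lt_of_le hj (Finset.single_le_sum (fun i _ => hh i) (Finset.mem_univ j))
    rcases eq_or_ne (∑ j, v (h j)) ⊤ with h4 | h4
    · rw [h4, top_add]
      exact WithTop.coe_lt_top _
    · obtain ⟨z, hz⟩ := WithTop.ne_top_iff_exists.1 h4
      rw [← hz] at h2 ⊢
      have h5 : 0 < z := WithTop.coe_lt_coe.1 h2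
      rw [← WithTop.coe_add]
      exact WithTop.coe_lt_coe.2 (by omega)

theorem ord_case2 [CharZero k] [IsAlgClosed k] {F : Frame k K (e + 1)}
    {v : AddValuation K (WithTop ℤ)} (hv : DV k v) {a : ℤ} (ha : CanOrd F v a)
    {η : (Fin e → K) → K} {f : K}
    (hη : ∀ h, η h = F.jac (Fin.cons f h : Fin (e + 1) → K))
    (hf : ∀ c : k, v (f - algebraMap k K c) = 0) :
    OrdR v η (-a) ∧ epsR v η (-a) = 1 := by
  classical
  obtain ⟨h0, h1, h2, h3⟩ := exists_transverse hv ha hf
  have hvf : v f = 0 := by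
    have h1 := hf 0
    rwa [map_zero, sub_zero] at h1
  have h4 : v (η h0) = ((-a : ℤ) : WithTop ℤ) := by
    rw [hη, h3]
  refine ⟨⟨fun h hh => ?_, fun m hm => ?_⟩, if_neg fun hinv => ?_⟩
  · rw [hη]
    refine ha.1 _ fun j => ?_
    refine Fin.cases ?_ (fun i => ?_) j
    · rw [Fin.cons_zero, hvf]
    · rw [Fin.cons_succ]
      exact hh i
  · have h5 := hm h0 h1
    rw [h4] at h5
    exact WithTop.coe_le_coe.1 h5
  · have h5 := hinv h0 h1 h2
    rw [h4] at h5
    exact lt_irrefl _ h5

theorem ord_of_eq {v : AddValuation K (WithTop ℤ)} {f : K} {n : ℤ}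
    (h : v f = ((n : ℤ) : WithTop ℤ)) : ord v f = n := by
  unfold ord
  rw [h]
  rfl

theorem ord_of_zero {v : AddValuation K (WithTop ℤ)} {f : K} (h : v f = 0) : ord v f = 0 := by
  unfold ord
  rw [h]
  rfl

theorem val_eq_ord (v : AddValuation K (WithTop ℤ)) {f : K} (hf : f ≠ 0) :
    v f = ((ord v f : ℤ) : WithTop ℤ) := by
  obtain ⟨n, hn⟩ := WithTop.ne_top_iff_exists.1 (v.ne_top_iff.2 hf)
  rw [ord_of_eq hn.symm, hn]

theorem core [CharZero k] [IsAlgClosed k] {F : Frame k K (e + 1)}
    {v : AddValuation K (WithTop ℤ)} (hv : DV k v) {c : ℤ} (hc : CanOrd F v c) {φ : K}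
    (hφ : ∀ a : k, φ ≠ algebraMap k K a) :
    ∃ m C : ℤ, OrdR v (eta F φ) m ∧ m = C - (c + 1) + epsR v (eta F φ) m ∧
      ((ord v φ ≠ 0 ∧ C = ord v φ ∧ epsR v (eta F φ) m = 0) ∨
        (ord v φ = 0 ∧ epsR v (eta F φ) m = 0 ∧ 0 < C ∧ ∃ α : k, α ≠ 0 ∧
          C = ord v (mem φ α) ∧ ∀ β : k, β ≠ α → ord v (mem φ β) = 0) ∨
        (ord v φ = 0 ∧ C = 0 ∧ epsR v (eta F φ) m = 1 ∧ ∀ β : k, ord v (mem φ β) = 0)) := by
  classical
  have hφ0 : φ ≠ 0 := by
    have h1 := hφ 0
    rwa [map_zero] at h1
  have hφv := val_eq_ord v hφ0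
  have hmem0 : ∀ α : k, mem φ α ≠ 0 := by
    intro α h
    unfold mem at h
    by_cases hα : α = 0
    · rw [hα, map_zero, zero_mul, add_zero] at h
      exact one_ne_zero h
    · have h2 : algebraMap k K α ≠ 0 := fun h =>
        hα ((algebraMap k K).injective (h.trans (map_zero _).symm))
      refine hφ (-α⁻¹) ?_
      rw [map_neg, map_inv₀]
      field_simp
      linear_combination h
  by_cases hn : ord v φ = 0
  · have hφ1 : v φ = 0 := by
      rw [hφv, hn]
      rfl
    have hge : ∀ α : k, 0 ≤ v (mem φ α) := by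
      intro α
      unfold mem
      refine v.map_le_add v.map_one.ge ?_
      rw [v.map_mul, hφ1, add_zero]
      exact hv.const α
    by_cases hex : ∃ α : k, 0 < v (mem φ α)
    · obtain ⟨α, hα⟩ := hex
      have hα0 : α ≠ 0 := by
        rintro rfl
        unfold mem at hα
        rw [map_zero, zero_mul, add_zero, v.map_one] at hα
        exact lt_irrefl _ hα
      have hαv := val_eq_ord v (hmem0 α)
      have hpos : 0 < ord v (mem φ α) := by
        rw [hαv] at hα
        exact WithTop.coe_lt_coe.1 hα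
      have hα1 : algebraMap k K α ≠ 0 := fun h =>
        hα0 ((algebraMap k K).injective (h.trans (map_zero _).symm))
      obtain ⟨h1, h2⟩ := ord_case1 (η := eta F φ) (c := algebraMap k K α⁻¹) hv hc
        (fun h => by
          have h3 : firstDer F h (mem φ α) = algebraMap k K α * firstDer F h φ := by
            unfold mem
            rw [map_add, Derivation.map_one_eq_zero, zero_add, Derivation.leibniz,
              Derivation.map_algebraMap, smul_zero, add_zero, smul_eq_mul]
          rw [← firstDer_apply, h3, map_inv₀, ← mul_assoc, inv_mul_cancel₀ hα1, one_mul,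
            firstDer_apply]
          rfl)
        (val_const hv (inv_ne_zero hα0)) hpos.ne' hαv
      refine ⟨_, ord v (mem φ α), h1, ?_, Or.inr (Or.inl ⟨hn, h2, hpos, α, hα0, rfl,
        fun β hβ => ?_⟩)⟩
      · rw [h2]
        omega
      · refine ord_of_zero ?_
        have h3 : mem φ β = mem φ α + algebraMap k K (β - α) * φ := by
          unfold mem
          rw [map_sub]
          ring
        have h4 : v (algebraMap k K (β - α) * φ) = 0 := by
          rw [v.map_mul, hφ1, add_zero, val_const hv (sub_ne_zero.2 hβ)]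
        rw [h3, v.map_add_eq_of_lt_right, h4]
        rw [h4]
        exact hα
    · push Not at hex
      have hmem : ∀ β : k, v (mem φ β) = 0 := fun β => le_antisymm (hex β) (hge β)
      obtain ⟨h1, h2⟩ := ord_case2 (η := eta F φ) (f := φ) hv hc (fun h => rfl) (fun a => by
        by_cases ha : a = 0
        · rw [ha, map_zero, sub_zero, hφ1]
        · have ha1 : algebraMap k K a ≠ 0 := fun h =>
            ha ((algebraMap k K).injective (h.trans (map_zero _).symm))
          have h3 : φ - algebraMap k K a = algebraMap k K (-a) * mem φ (-a⁻¹) := by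
            unfold mem
            rw [map_neg, map_neg, map_inv₀]
            field_simp
            ring
          rw [h3, v.map_mul, hmem, val_const hv (neg_ne_zero.2 ha), add_zero])
      refine ⟨_, 0, h1, ?_, Or.inr (Or.inr ⟨hn, rfl, h2, fun β => ord_of_zero (hmem β)⟩)⟩
      rw [h2]
      omega
  · obtain ⟨h1, h2⟩ := ord_case1 (η := eta F φ) (c := 1) hv hc (fun h => (one_mul _).symm)
      v.map_one hn hφv
    refine ⟨_, ord v φ, h1, ?_, Or.inl ⟨hn, rfl, h2⟩⟩
    rw [h2]
    omega

end Pool.Agent.H72Pen
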