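import Pool.Agent.H72Acc.Defs

/-!
# Foliations of codimension one with a rational first integral on normal varieties (definitions)

`K` is the function field of a normal variety `X` of dimension `d = e + 1` over the algebraically
closed field `k` of characteristic zero. Canonical divisors are divisors of a fixed rational form
`dx_1 ∧ ... ∧ dx_d`. Prime divisors over `X` are given by their valuations. A foliation of
codimension one with the rational first integral `φ` is defined by `dφ`, and its canonical divisors
(on `X` and on all varieties birational to `X`) are the divisors `- div (η)`, where the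
`(d - 1)`-vector `η` is the contraction of the `d`-vector dual to `dx_1 ∧ ... ∧ dx_d` with `dφ`.
-/

set_option autoImplicit false

noncomputable section

namespace Pool.Agent.H72Pen

open IsLocalRing Pool.Agent.H72Acc

variable {k K : Type} [Field k] [Field K] [Algebra k K] {d e : ℕ}

/-- Elements `x_1, ..., x_d` of the function field `K` of a variety of dimension `d` and the partial
derivatives with respect to them. -/
structure Frame (k K : Type) [Field k] [Field K] [Algebra k K] (d : ℕ) where
  trdeg : Algebra.trdeg k K = d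
  x : Fin d → K
  der : Fin d → Derivation k K K
  der_x : ∀ i j : Fin d, der i (x j) = if i = j then 1 else 0

/-- The Jacobian: `df_1 ∧ ... ∧ df_d = jac f * dx_1 ∧ ... ∧ dx_d`. -/
def Frame.jac (F : Frame k K d) (f : Fin d → K) : K :=
  Matrix.det (Matrix.of fun i j : Fin d => F.der i (f j))

/-- A closed point of a normal variety over `k` with the function field `K`: the local ring, which is
a localization of a finitely generated algebra, with the field of fractions `K` and the residue
field `k`, and integrally closed. -/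
structure Germ (k K : Type) [Field k] [Field K] [Algebra k K] where
  ring : Subalgebra k K
  essFin : Algebra.EssFiniteType k ring
  frac : ∀ f : K, ∃ g ∈ ring, ∃ h ∈ ring, h ≠ 0 ∧ f = g / h
  [isLocal : IsLocalRing ring]
  res : ∀ f : ring, ∃ c : k, f - algebraMap k ring c ∈ maximalIdeal ring
  normal : IsIntegrallyClosed ring

/-- `v` is the valuation of a prime divisor over `X` whose centre contains the point `p`: it is
nonnegative on the local ring, its value group is `ℤ`, and its residue field has transcendence
degree `d - 1` over `k` (there are `d - 1` elements with algebraically independent residues). -/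
structure IsDiv (d : ℕ) (p : Germ k K) (v : AddValuation K (WithTop ℤ)) : Prop where
  nonneg : ∀ f ∈ p.ring, 0 ≤ v f
  surj : ∃ f : K, v f = 1
  trdeg : ∃ u : Fin (d - 1) → K, ∀ P : MvPolynomial (Fin (d - 1)) k, P ≠ 0 →
    v (MvPolynomial.aeval u P) = 0

/-- `v` is the valuation of a prime divisor on `X` through the point `p`: its valuation ring is a
localization of the local ring. -/
def OnX (p : Germ k K) (v : AddValuation K (WithTop ℤ)) : Prop :=
  ∀ f : K, 0 ≤ v f → ∃ g ∈ p.ring, ∃ h ∈ p.ring, v h = 0 ∧ f = g / h

/-- The order of a rational function along a divisor (and `0` for the function `0`). -/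
def ord (v : AddValuation K (WithTop ℤ)) (f : K) : ℤ := (v f).untopD 0

/-- The multiplicity at the divisor with the valuation `v` of the `ℝ`-Cartier divisor
`∑ λ_ψ div (ψ)`, where the real linear combination `λ` of rational functions is finitely
supported. -/
def mult (v : AddValuation K (WithTop ℤ)) : (Kˣ →₀ ℝ) →ₗ[ℝ] ℝ :=
  Finsupp.linearCombination ℝ fun ψ : Kˣ => (ord v (ψ : K) : ℝ)

/-- `c` is the order of the form `dx_1 ∧ ... ∧ dx_d` along the divisor: the forms
`df_1 ∧ ... ∧ df_d`, with `f_j` in the valuation ring, generate the forms which are regular there; so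
`- c` is the smallest order of the functions `jac f`. -/
def CanOrd (F : Frame k K d) (v : AddValuation K (WithTop ℤ)) (c : ℤ) : Prop :=
  IsLeast {c : ℤ | ∀ f : Fin d → K, (∀ j, 0 ≤ v (f j)) →
    ((-c : ℤ) : WithTop ℤ) ≤ v (F.jac f)} c

/-- Near `p` the canonical divisor `K_X` (the divisor of `dx_1 ∧ ... ∧ dx_d` on `X`) is equal to
`∑ κ_ψ div (ψ)`. -/
def CanCartier (F : Frame k K d) (p : Germ k K) (κ : Kˣ →₀ ℝ) : Prop :=
  ∀ v : AddValuation K (WithTop ℤ), IsDiv d p v → OnX p v → ∀ c : ℤ, CanOrd F v c →
    mult v κ = c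

/-- The inequality of the definition of a log canonical pair for `(X, t D)` and all divisors over
`X` whose centre contains `p`, where `K_X = ∑ κ_ψ div (ψ)` and `D = ∑ μ_ψ div (ψ)` near `p`. -/
def PairLc (F : Frame k K d) (p : Germ k K) (κ μ : Kˣ →₀ ℝ) (t : ℝ) : Prop :=
  ∀ v : AddValuation K (WithTop ℤ), IsDiv d p v → ∀ c : ℤ, CanOrd F v c →
    t * mult v μ ≤ (c - mult v κ) + 1

/-- The supremum of all `t` in `[0, 1]` for which `(X, t D)` is log canonical at `p`: the minimum of
`1` and the log canonical threshold (and `0` if `X` is not log canonical). -/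
def lct (F : Frame k K d) (p : Germ k K) (κ μ : Kˣ →₀ ℝ) : ℝ :=
  sSup {t : ℝ | 0 ≤ t ∧ t ≤ 1 ∧ PairLc F p κ μ t}

/-- The set has the descending chain condition. -/
def Dcc (Γ : Set ℝ) : Prop := ∀ g : ℕ → ℝ, StrictAnti g → ∃ n, g n ∉ Γ

/-- The set has the ascending chain condition. -/
def Acc (Γ : Set ℝ) : Prop := ∀ g : ℕ → ℝ, StrictMono g → ∃ n, g n ∉ Γ

/-- The ascending chain condition for log canonical thresholds in dimension `d` (a theorem of Hacon,
McKernan and Xu, for all `d`): for every set `Γ` of nonnegative real numbers with the descending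
chain condition there is a set `L` with the ascending chain condition which contains the thresholds
`min (1, lct (X, D))` at the closed points of all normal varieties `X` of dimension `d` over
algebraically closed fields of characteristic zero with an `ℝ`-Cartier divisor `K_X` and for all
`ℝ`-Cartier divisors `D` with coefficients in `Γ` (or `0`). -/
def LctAcc (d : ℕ) : Prop :=
  ∀ Γ : Set ℝ, (∀ γ ∈ Γ, 0 ≤ γ) → Dcc Γ → ∃ L : Set ℝ, Acc L ∧
    ∀ (k K : Type) [Field k] [IsAlgClosed k] [CharZero k] [Field K] [Algebra k K]
      (F : Frame k K d) (p : Germ k K) (κ μ : Kˣ →₀ ℝ), CanCartier F p κ →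
      (∀ v : AddValuation K (WithTop ℤ), IsDiv d p v → OnX p v →
        mult v μ = 0 ∨ mult v μ ∈ Γ) →
      lct F p κ μ ∈ L

/-- The `e`-vector of the foliation with the first integral `φ`:
`η (h_1, ..., h_e) dx_1 ∧ ... ∧ dx_(e+1) = dφ ∧ dh_1 ∧ ... ∧ dh_e`. -/
def eta (F : Frame k K (e + 1)) (φ : K) (h : Fin e → K) : K :=
  F.jac (Fin.cons φ h : Fin (e + 1) → K)

/-- Near `p`, the divisor `K_F + B` (with `K_F = - div (η)` on `X`) is equal to `∑ λ_ψ div (ψ)`,
and the coefficients of `B` are in `Γ` (or `0`). -/
def FolCartier (F : Frame k K (e + 1)) (p : Germ k K) (φ : K) (lam : Kˣ →₀ ℝ) (Γ : Set ℝ) : Prop :=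
  ∀ v : AddValuation K (WithTop ℤ), IsDiv (e + 1) p v → OnX p v → ∀ m : ℤ,
    OrdR v (eta F φ) m → ∃ b : ℝ, (b = 0 ∨ b ∈ Γ) ∧ mult v lam = -m + b

/-- The inequality of the definition of a log canonical structure for the divisor `E` with the
valuation `v`, for the adjoint foliated structure `(X, F, t B, t)`, where near `p`
`K_X = ∑ κ_ψ div (ψ)` and `K_F + B = ∑ λ_ψ div (ψ)`. -/
def FolLc (F : Frame k K (e + 1)) (φ : K) (κ lam : Kˣ →₀ ℝ) (t : ℝ)
    (v : AddValuation K (WithTop ℤ)) : Prop :=
  ∀ m c : ℤ, OrdR v (eta F φ) m → CanOrd F v c →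
    t * (m + mult v lam) - (1 - t) * (c - mult v κ) ≤ t * epsR v (eta F φ) m + (1 - t)

/-- The interpolated log canonical threshold of `(X, F, B)`. -/
def ilct (F : Frame k K (e + 1)) {I : Type} (p : I → Germ k K) (φ : I → K)
    (κ lam : I → (Kˣ →₀ ℝ)) : ℝ :=
  sSup {t : ℝ | 0 ≤ t ∧ t ≤ 1 ∧ ∀ i, ∀ v : AddValuation K (WithTop ℤ), IsDiv (e + 1) (p i) v →
    FolLc F (φ i) (κ i) (lam i) t v}

open Classical in
/-- The principal divisor of a nonzero rational function. -/
def prin (f : K) : Kˣ →₀ ℝ :=
  if h : f = 0 then 0 else Finsupp.single (Units.mk0 f h) 1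

/-- The function `1 + α φ`. -/
def mem (φ : K) (α : k) : K := 1 + algebraMap k K α * φ

/-- The divisor `D_α = (K_F + B) - K_X + div (φ) + div (1 + α φ)`. -/
def mdiv (κ lam : Kˣ →₀ ℝ) (φ : K) (α : k) : Kˣ →₀ ℝ :=
  lam - κ + prin φ + prin (mem φ α)

/-- All fibres of `φ`, except possibly the fibre over `0`, are reduced at `p`: the orders of the
poles of `φ`, and of the zeros of `φ - c`, for `c ≠ 0`, along prime divisors on `X` through `p` are
at most `1`. -/
def Reduced (d : ℕ) (p : Germ k K) (φ : K) : Prop :=
  ∀ v : AddValuation K (WithTop ℤ), IsDiv d p v → OnX p v →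
    -1 ≤ ord v φ ∧ ∀ c : k, c ≠ 0 → ord v (φ - algebraMap k K c) ≤ 1

/-- Near `p`, either `φ` is a regular function with `φ (p) = 0` (so the foliation is given by a
fibration over a curve), or all fibres of `φ` except possibly the fibre over `0` are reduced. -/
def Admissible (d : ℕ) (p : Germ k K) (φ : K) : Prop :=
  (φ ∈ p.ring ∧ φ⁻¹ ∉ p.ring) ∨ Reduced d p φ

/-- The divisor with the valuation `v` is in the fibre of `φ` over `0`, or in the fibre over
`- 1 / α` (over `∞`, if `α = 0`). -/
def InFibre (v : AddValuation K (WithTop ℤ)) (φ : K) (α : k) : Prop :=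
  0 < ord v φ ∨ 0 < ord v (mem φ α) ∨ (α = 0 ∧ ord v φ < 0)

end Pool.Agent.H72Pen
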