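import Pool.Agent.H72Pen.Defs
import Pool.Agent.H72Acc.OrdR

/-!
# Dual derivations and the logarithmic estimate for Jacobians
-/

set_option autoImplicit false

noncomputable section

namespace Pool.Agent.H72Pen

open IsLocalRing Pool.Agent.H72Acc

variable {k K : Type} [Field k] [Field K] [Algebra k K] {d e : ℕ}

theorem jac_eq_wedge (F : Frame k K d) (x : Fin d → K) : F.jac x = wedge F.der 1 x := by
  unfold Frame.jac wedge
  rw [one_mul]

theorem ordR_of_disc {F : Frame k K d} {v : AddValuation K (WithTop ℤ)} {a : ℤ}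
    (ha : CanOrd F v a) : OrdR v (wedge F.der 1) (-a) := by
  refine ⟨fun f hf => ?_, fun m hm => ?_⟩
  · rw [← jac_eq_wedge]
    exact ha.1 f hf
  · have h1 := ha.2 (show (-m : ℤ) ∈ _ from fun f hf => by
      have h2 := hm f hf
      rw [← jac_eq_wedge] at h2
      rwa [neg_neg])
    omega

/-- Logarithmic forms have at most a simple pole. -/
theorem log_le {F : Frame k K d} {v : AddValuation K (WithTop ℤ)} (hv : ∃ f : K, v f = 1)
    {a : ℤ} (ha : CanOrd F v a) (x : Fin d → K) :
    ∑ j, v (x j) + ((-a - 1 : ℤ) : WithTop ℤ) ≤ v (F.jac x) := by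
  have h1 := ge_of_ordR hv (ordR_of_disc ha) x
  rw [← jac_eq_wedge] at h1
  refine le_trans (add_le_add le_rfl (WithTop.coe_le_coe.2 ?_)) h1
  unfold epsR
  split <;> omega

/-- The derivations dual to `x`. -/
def dual (F : Frame k K d) (x : Fin d → K) (j : Fin d) : Derivation k K K :=
  (F.jac x)⁻¹ • ∑ i, (Matrix.of fun i j : Fin d => F.der i (x j)).adjugate j i • F.der i

theorem dual_apply (F : Frame k K d) (x : Fin d → K) (j : Fin d) (y : K) :
    dual F x j y = (F.jac x)⁻¹ * F.jac (Function.update x j y) := by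
  classical
  unfold dual
  rw [Derivation.smul_apply, smul_eq_mul]
  congr 1
  have h1 : (∑ i, (Matrix.of fun i j : Fin d => F.der i (x j)).adjugate j i • F.der i) y =
      ∑ i, (Matrix.of fun i j : Fin d => F.der i (x j)).adjugate j i * F.der i y := by
    rw [← Derivation.coeFnAddMonoidHom_apply, map_sum, Finset.sum_apply]
    rfl
  rw [h1]
  have h2 := Matrix.cramer_eq_adjugate_mulVec (Matrix.of fun i j : Fin d => F.der i (x j))
    (fun i => F.der i y)
  have h3 := congrFun h2 j
  rw [Matrix.cramer_apply, Matrix.mulVec, dotProduct] at h3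
  rw [← h3]
  unfold Frame.jac
  congr 1
  ext i l
  rw [Matrix.updateCol_apply, Matrix.of_apply, Matrix.of_apply]
  by_cases hl : l = j
  · rw [if_pos hl, hl, Function.update_self]
  · rw [if_neg hl, Function.update_of_ne hl]

theorem jac_eq_zero {F : Frame k K d} {x : Fin d → K} {i j : Fin d} (hij : i ≠ j)
    (hx : x i = x j) : F.jac x = 0 := by
  unfold Frame.jac
  refine Matrix.det_zero_of_column_eq hij fun l => ?_
  rw [Matrix.of_apply, Matrix.of_apply, hx]

theorem dual_self {F : Frame k K d} {x : Fin d → K} (hx : F.jac x ≠ 0) (j l : Fin d) :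
    dual F x j (x l) = if j = l then 1 else 0 := by
  rw [dual_apply]
  by_cases h : j = l
  · rw [if_pos h, h, Function.update_eq_self, inv_mul_cancel₀ hx]
  · rw [if_neg h, jac_eq_zero (x := Function.update x j (x l)) h, mul_zero]
    rw [Function.update_self, Function.update_of_ne (Ne.symm h)]

/-- Permutations do not change the value of a Jacobian. -/
theorem val_jac_perm (F : Frame k K d) (v : AddValuation K (WithTop ℤ)) (x : Fin d → K)
    (σ : Equiv.Perm (Fin d)) : v (F.jac fun j => x (σ j)) = v (F.jac x) := by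
  unfold Frame.jac
  have h1 := Matrix.det_permute' σ (Matrix.of fun i j : Fin d => F.der i (x j))
  have h2 : (Matrix.of fun i j : Fin d => F.der i (x (σ j))) =
      (Matrix.of fun i j : Fin d => F.der i (x j)).submatrix id σ := rfl
  rw [h2, h1, v.map_mul]
  have h3 : v (((Equiv.Perm.sign σ : ℤˣ) : ℤ) : K) = 0 := by
    rcases Int.units_eq_one_or (Equiv.Perm.sign σ) with h | h
    · rw [h]
      simp
    · rw [h]
      simp
  rw [h3, zero_add]

end Pool.Agent.H72Pen
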