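import Pool.Agent.H72Pen.LogBasis

/-!
# The order of the canonical form along prime divisors on `X` exists
-/

set_option autoImplicit false

noncomputable section

namespace Pool.Agent.H72Pen

open IsLocalRing Pool.Agent.H72Acc

variable {k K : Type} [Field k] [Field K] [Algebra k K] {d e : ℕ}

private theorem le_of_mul_unit {v : AddValuation K (WithTop ℤ)} {x y : K} {b : ℤ} (hx : v x = 0)
    (h : (b : WithTop ℤ) ≤ v (x * y)) : (b : WithTop ℤ) ≤ v y := by
  rwa [v.map_mul, hx, zero_add] at h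

theorem der_bound {p : Germ k K} {v : AddValuation K (WithTop ℤ)}
    (hv : ∀ f ∈ p.ring, 0 ≤ v f) (hX : OnX p v) (D : Derivation k K K) :
    ∃ b : ℤ, ∀ f : K, 0 ≤ v f → (b : WithTop ℤ) ≤ v (D f) := by
  classical
  obtain ⟨σ, hσ⟩ := (Algebra.essFiniteType_iff k p.ring).1 p.essFin
  obtain ⟨b, hb⟩ : ∃ b : ℤ, ∀ y ∈ σ, (b : WithTop ℤ) ≤ v (D (y : K)) := by
    clear hσ
    induction σ using Finset.induction_on with
    | empty => exact ⟨0, fun y hy => absurd hy (Finset.notMem_empty y)⟩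
    | insert y s _ ih =>
      obtain ⟨b, hb⟩ := ih
      obtain ⟨b', hb'⟩ : ∃ b' : ℤ, (b' : WithTop ℤ) ≤ v (D (y : K)) := by
        rcases eq_or_ne (v (D (y : K))) ⊤ with h | h
        · exact ⟨0, by rw [h]; exact le_top⟩
        · obtain ⟨z, hz⟩ := WithTop.ne_top_iff_exists.1 h
          exact ⟨z, hz.le⟩
      refine ⟨min b b', fun z hz => ?_⟩
      rcases Finset.mem_insert.1 hz with h | h
      · rw [h]
        exact le_trans (WithTop.coe_le_coe.2 (min_le_right _ _)) hb'
      · exact le_trans (WithTop.coe_le_coe.2 (min_le_left _ _)) (hb z h)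
  have h1 : ∀ t ∈ Algebra.adjoin k (σ : Set p.ring), (b : WithTop ℤ) ≤ v (D (t : K)) := by
    intro t ht
    induction ht using Algebra.adjoin_induction with
    | mem y hy => exact hb y hy
    | algebraMap c =>
      have h2 : ((algebraMap k p.ring c : p.ring) : K) = algebraMap k K c := rfl
      rw [h2, Derivation.map_algebraMap, v.map_zero]
      exact le_top
    | add x y _ _ hx hy =>
      have h2 : ((x + y : p.ring) : K) = (x : K) + (y : K) := rfl
      rw [h2, map_add]
      exact v.map_le_add hx hy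
    | mul x y _ _ hx hy =>
      have h2 : ((x * y : p.ring) : K) = (x : K) * (y : K) := rfl
      rw [h2, Derivation.leibniz, smul_eq_mul, smul_eq_mul]
      refine v.map_le_add ?_ ?_
      · rw [v.map_mul]
        exact hy.trans (le_add_of_nonneg_left (hv _ x.2))
      · rw [v.map_mul]
        exact hx.trans (le_add_of_nonneg_left (hv _ y.2))
  have h2 : ∀ s : p.ring, (b : WithTop ℤ) ≤ v (D (s : K)) := by
    intro s
    obtain ⟨t, ht, htu, hst⟩ := hσ s
    have h3 := h1 t ht
    have h4 := h1 _ hst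
    have h5 : ((s * t : p.ring) : K) = (s : K) * (t : K) := rfl
    have hvt : v (t : K) = 0 := by
      obtain ⟨t', ht'⟩ := htu.exists_right_inv
      have h6 : (t : K) * (t' : K) = 1 := by
        rw [← MulMemClass.coe_mul, ht']
        rfl
      have h7 : v (t : K) + v (t' : K) = 0 := by
        rw [← v.map_mul, h6, v.map_one]
      refine le_antisymm ?_ (hv _ t.2)
      rw [← h7]
      exact le_add_of_nonneg_right (hv _ t'.2)
    refine le_of_mul_unit hvt ?_
    have h8 : (t : K) * D (s : K) = D ((s * t : p.ring) : K) - (s : K) * D (t : K) := by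
      rw [h5, Derivation.leibniz, smul_eq_mul, smul_eq_mul]
      ring
    rw [h8]
    refine v.map_le_sub h4 ?_
    rw [v.map_mul]
    exact h3.trans (le_add_of_nonneg_left (hv _ s.2))
  refine ⟨b, fun f hf => ?_⟩
  obtain ⟨g, hg, h, hh, hvh, hfgh⟩ := hX f hf
  have hh0 : h ≠ 0 := by
    rintro rfl
    rw [v.map_zero] at hvh
    exact WithTop.top_ne_zero hvh
  refine le_of_mul_unit hvh ?_
  have h8 : h * D f = D g - f * D h := by
    have h9 : g = f * h := by
      rw [hfgh, div_mul_cancel₀ _ hh0]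
    rw [h9, Derivation.leibniz, smul_eq_mul, smul_eq_mul]
    ring
  rw [h8]
  refine v.map_le_sub (h2 ⟨g, hg⟩) ?_
  rw [v.map_mul]
  exact (h2 ⟨h, hh⟩).trans (le_add_of_nonneg_left hf)

private theorem det_bound {v : AddValuation K (WithTop ℤ)} {M : Matrix (Fin d) (Fin d) K} {b : ℤ}
    (hM : ∀ i j, (b : WithTop ℤ) ≤ v (M i j)) : ((d * b : ℤ) : WithTop ℤ) ≤ v M.det := by
  classical
  rw [Matrix.det_apply']
  refine v.map_le_sum fun σ _ => ?_
  have h3 : v (((Equiv.Perm.sign σ : ℤˣ) : ℤ) : K) = 0 := by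
    rcases Int.units_eq_one_or (Equiv.Perm.sign σ) with h | h
    · rw [h]
      simp
    · rw [h]
      simp
  rw [v.map_mul, h3, zero_add, val_prod]
  refine le_trans (le_of_eq ?_) (Finset.sum_le_sum fun i _ => hM (σ i) i)
  rw [Finset.sum_const, Finset.card_univ, Fintype.card_fin, ← WithTop.coe_nsmul, nsmul_eq_mul]

theorem exists_canOrd (F : Frame k K d) {p : Germ k K} {v : AddValuation K (WithTop ℤ)}
    (hv : IsDiv d p v) (hX : OnX p v) : ∃ c, CanOrd F v c := by
  classical
  have hb : ∀ i, ∃ b : ℤ, ∀ f : K, 0 ≤ v f → (b : WithTop ℤ) ≤ v (F.der i f) := fun i =>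
    der_bound hv.nonneg hX (F.der i)
  choose b hb using hb
  obtain ⟨b0, hb0⟩ : ∃ b0 : ℤ, ∀ i, b0 ≤ b i := by
    obtain ⟨b0, h⟩ := (Set.finite_range b).bddBelow
    exact ⟨b0, fun i => h ⟨i, rfl⟩⟩
  -- functions with nonzero Jacobian
  have h2 : ∀ j, ∃ (y s : K), 0 ≤ v y ∧ s ≠ 0 ∧ ∀ a, F.der a y = s * F.der a (F.x j) := by
    intro j
    have hx0 : F.x j ≠ 0 := by
      intro h
      have h1 := F.der_x j j
      rw [h, map_zero, if_pos rfl] at h1
      exact zero_ne_one h1
    by_cases hvg : 0 ≤ v (F.x j)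
    · exact ⟨F.x j, 1, hvg, one_ne_zero, fun a => (one_mul _).symm⟩
    · refine ⟨(F.x j)⁻¹, -(F.x j)⁻¹ ^ 2, ?_,
        neg_ne_zero.2 (pow_ne_zero _ (inv_ne_zero hx0)), fun a => ?_⟩
      · obtain ⟨x, hx⟩ := WithTop.ne_top_iff_exists.1 (v.ne_top_iff.2 hx0)
        rw [v.map_inv, ← hx]
        rw [← hx] at hvg
        have h3 : x < 0 := by
          by_contra h4
          exact hvg (WithTop.coe_le_coe.2 (not_lt.1 h4))
        have h4 : (0 : ℤ) ≤ -x := by omega
        exact WithTop.coe_le_coe.2 h4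
      · rw [Derivation.leibniz_inv, smul_eq_mul]
  choose y s hy hs hDy using h2
  have hjac : F.jac y ≠ 0 := by
    have h3 : F.jac y = ∏ j, s j := by
      unfold Frame.jac
      have h4 : (Matrix.of fun a j => F.der a (y j)) = Matrix.diagonal s := by
        ext a j
        rw [Matrix.of_apply, hDy, F.der_x, Matrix.diagonal_apply]
        by_cases h : a = j
        · rw [if_pos h, if_pos h, mul_one, h]
        · rw [if_neg h, if_neg h, mul_zero]
      rw [h4, Matrix.det_diagonal]
    rw [h3]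
    exact Finset.prod_ne_zero_iff.2 fun j _ => hs j
  obtain ⟨z, hz⟩ := WithTop.ne_top_iff_exists.1 (v.ne_top_iff.2 hjac)
  obtain ⟨a, ha1, ha2⟩ := Int.exists_least_of_bdd
    (P := fun a : ℤ => ∀ f : Fin d → K, (∀ j, 0 ≤ v (f j)) →
      ((-a : ℤ) : WithTop ℤ) ≤ v (F.jac f))
    ⟨-z, fun a ha => by
      have h3 := ha y hy
      rw [← hz] at h3
      have h4 : -a ≤ z := WithTop.coe_le_coe.1 h3
      omega⟩
    ⟨-(d * b0), fun f hf => by
      rw [neg_neg]
      refine det_bound fun i j => ?_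
      rw [Matrix.of_apply]
      exact le_trans (WithTop.coe_le_coe.2 (hb0 i)) (hb i _ (hf j))⟩
  exact ⟨a, ha1, fun z hz => ha2 z hz⟩

end Pool.Agent.H72Pen
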