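import Pool.Agent.H72Pen.Main

/-!
# The divisors of the pairs at arbitrary points

No condition on the fibres of the first integral through the point.
-/

set_option autoImplicit false

noncomputable section

namespace Pool.Agent.H72Pen

open IsLocalRing Pool.Agent.H72Acc

/-- The divisor with the valuation `v` is a component of multiplicity `n > 0` of a fibre of `φ`
(the fibre over `∞`, or over some `c` in `k`). -/
def FibreMult (k : Type) {K : Type} [Field k] [Field K] [Algebra k K]
    (v : AddValuation K (WithTop ℤ)) (φ : K) (n : ℤ) : Prop :=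
  0 < n ∧ (ord v φ = -n ∨ ∃ c : k, ord v (φ - algebraMap k K c) = n)

variable {k K : Type} [Field k] [Field K] [Algebra k K] {d e : ℕ}

theorem ord_sub_eq_mem {v : AddValuation K (WithTop ℤ)} (hv : DV k v) {φ : K}
    (hφ : ∀ a : k, φ ≠ algebraMap k K a) {β : k} (hβ0 : β ≠ 0) :
    ord v (mem φ β) = ord v (φ - algebraMap k K (-β⁻¹)) := by
  have hβ1 : algebraMap k K β ≠ 0 := fun h =>
    hβ0 ((algebraMap k K).injective (h.trans (map_zero _).symm))
  have h12 : mem φ β = algebraMap k K β * (φ - algebraMap k K (-β⁻¹)) := by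
    unfold mem
    rw [map_neg, map_inv₀]
    field_simp
    ring
  refine ord_of_eq ?_
  rw [h12, v.map_mul, val_const hv hβ0, zero_add]
  exact val_eq_ord v (sub_ne_zero.2 (hφ _))

/-- The order of `φ - c` along a divisor over which `φ` is a unit. -/
theorem ord_sub_mem {v : AddValuation K (WithTop ℤ)} (hv : DV k v) {φ : K}
    (hφ : ∀ a : k, φ ≠ algebraMap k K a) {c : k} (hc : c ≠ 0) :
    ord v (φ - algebraMap k K c) = ord v (mem φ (-c⁻¹)) := by
  rw [ord_sub_eq_mem hv hφ (neg_ne_zero.2 (inv_ne_zero hc)), inv_neg, inv_inv, neg_neg]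

/-- If `φ` has a pole then so has `φ - c`. -/
theorem ord_sub_of_neg {v : AddValuation K (WithTop ℤ)} (hv : DV k v) {φ : K}
    (hφ : ∀ a : k, φ ≠ algebraMap k K a) (h : ord v φ < 0) (c : k) :
    ord v (φ - algebraMap k K c) = ord v φ := by
  have hφ0 : φ ≠ 0 := by
    have h1 := hφ 0
    rwa [map_zero] at h1
  refine ord_of_eq ?_
  have h1 : v φ < v (-algebraMap k K c) := by
    rw [v.map_neg, val_eq_ord v hφ0]
    exact lt_of_lt_of_le (WithTop.coe_lt_coe.2 h) (hv.const c)
  rw [sub_eq_add_neg, v.map_add_eq_of_lt_left h1, val_eq_ord v hφ0]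

/-- If `φ` has a zero then `φ - c` is a unit, or `c = 0`. -/
theorem ord_sub_of_pos {v : AddValuation K (WithTop ℤ)} (hv : DV k v) {φ : K}
    (hφ : ∀ a : k, φ ≠ algebraMap k K a) (h : 0 < ord v φ) {c : k} (hc : c ≠ 0) :
    ord v (φ - algebraMap k K c) = 0 := by
  have hφ0 : φ ≠ 0 := by
    have h1 := hφ 0
    rwa [map_zero] at h1
  refine ord_of_zero ?_
  have h0 : v (-algebraMap k K c) = 0 := by
    rw [v.map_neg]
    exact val_const hv hc
  have h1 : v (-algebraMap k K c) < v φ := by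
    rw [h0, val_eq_ord v hφ0]
    exact WithTop.coe_lt_coe.2 h
  rw [sub_eq_add_neg, v.map_add_eq_of_lt_right h1, h0]

/-- The coefficients of the divisors of the pairs, without any condition on the fibres. -/
theorem coeff_gen [CharZero k] [IsAlgClosed k] {F : Frame k K (e + 1)} {p : Germ k K} {φ : K}
    (hφ : ∀ a : k, φ ≠ algebraMap k K a) {κ lam : Kˣ →₀ ℝ}
    (hκ : CanCartier F p κ) (α : k)
    {v : AddValuation K (WithTop ℤ)} (hv : IsDiv (e + 1) p v) (hX : OnX p v) :
    ∃ m, OrdR v (eta F φ) m ∧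
      ((InFibre v φ α ∧ mult v (mdiv κ lam φ α) = (mult v lam + m) + 1) ∨
        (¬ InFibre v φ α ∧
          ((∃ n, 0 < n ∧ (∀ n', FibreMult k v φ n' → n' = n) ∧ FibreMult k v φ n ∧
            mult v (mdiv κ lam φ α) = (mult v lam + m) + 1 - n) ∨
          ((∀ n, ¬ FibreMult k v φ n) ∧ mult v (mdiv κ lam φ α) = mult v lam + m)))) := by
  obtain ⟨c, hc⟩ := exists_canOrd F hv hX
  have hφ0 : φ ≠ 0 := by
    have h1 := hφ 0
    rwa [map_zero] at h1
  obtain ⟨m, C, h1, h2, h3⟩ := core hv.dv hc hφ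
  refine ⟨m, h1, ?_⟩
  have hκ1 := hκ v hv hX c hc
  have h4 : (m : ℝ) = (C : ℝ) - (c + 1) + epsR v (eta F φ) m := by
    exact_mod_cast h2
  have h15 : mult v (mdiv κ lam φ α) = (mult v lam + m) +
      (1 - epsR v (eta F φ) m - C + ord v φ + ord v (mem φ α)) := by
    rw [mult_mdiv, hκ1, h4]
    ring
  rcases h3 with ⟨h5, h6, h7⟩ | ⟨h5, h6, h7, β, hβ0, h8, h9⟩ | ⟨h5, h6, h7, h8⟩
  · rcases lt_or_gt_of_ne h5 with h10 | h10
    · by_cases hα : α = 0
      · left
        refine ⟨Or.inr (Or.inr ⟨hα, h10⟩), ?_⟩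
        rw [h15, h6, h7, hα, mem_zero, ord_of_zero v.map_one]
        push_cast
        ring
      · right
        have h12 : ord v (mem φ α) = ord v φ := by
          rw [ord_sub_eq_mem hv.dv hφ hα]
          exact ord_sub_of_neg hv.dv hφ h10 _
        refine ⟨?_, Or.inl ⟨-ord v φ, by omega, ?_, ⟨by omega, Or.inl (by omega)⟩, ?_⟩⟩
        · rintro (h | h | ⟨h, -⟩)
          · omega
          · rw [h12] at h
            omega
          · exact hα h
        · rintro n' ⟨hn', h13 | ⟨c', h13⟩⟩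
          · omega
          · rw [ord_sub_of_neg hv.dv hφ h10] at h13
            omega
        · rw [h15, h6, h7, h12]
          push_cast
          ring
    · left
      refine ⟨Or.inl h10, ?_⟩
      have h12 : ord v (mem φ α) = 0 := by
        by_cases hα : α = 0
        · rw [hα, mem_zero, ord_of_zero v.map_one]
        · rw [ord_sub_eq_mem hv.dv hφ hα]
          exact ord_sub_of_pos hv.dv hφ h10 (neg_ne_zero.2 (inv_ne_zero hα))
      rw [h15, h6, h7, h12]
      push_cast
      ring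
  · have hC : C = ord v (φ - algebraMap k K (-β⁻¹)) := by
      rw [← ord_sub_eq_mem hv.dv hφ hβ0]
      exact h8
    by_cases hαβ : α = β
    · left
      refine ⟨Or.inr (Or.inl ?_), ?_⟩
      · rw [hαβ, ← h8]
        exact h7
      · rw [h15, h5, h6, hαβ, ← h8]
        push_cast
        ring
    · right
      refine ⟨?_, Or.inl ⟨C, h7, ?_, ⟨h7, Or.inr ⟨-β⁻¹, hC.symm⟩⟩, ?_⟩⟩
      · rintro (h | h | ⟨-, h⟩)
        · omega
        · rw [h9 α hαβ] at h
          omega
        · omega
      · rintro n' ⟨hn', h13 | ⟨c', h13⟩⟩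
        · omega
        · by_cases hc' : c' = 0
          · rw [hc', map_zero, sub_zero, h5] at h13
            omega
          · rw [ord_sub_mem hv.dv hφ hc'] at h13
            by_cases hcb : -c'⁻¹ = β
            · rw [hcb, ← h8] at h13
              exact h13.symm
            · rw [h9 _ hcb] at h13
              omega
      · rw [h15, h5, h6, h9 α hαβ]
        push_cast
        ring
  · right
    refine ⟨?_, Or.inr ⟨?_, ?_⟩⟩
    · rintro (h | h | ⟨-, h⟩)
      · omega
      · rw [h8 α] at h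
        omega
      · omega
    · rintro n' ⟨hn', h13 | ⟨c', h13⟩⟩
      · omega
      · by_cases hc' : c' = 0
        · rw [hc', map_zero, sub_zero, h5] at h13
          omega
        · rw [ord_sub_mem hv.dv hφ hc', h8] at h13
          omega
    · rw [h15, h5, h6, h7, h8]
      push_cast
      ring

/-- The main theorem, at arbitrary points. -/
theorem general_iff [CharZero k] [IsAlgClosed k] (F : Frame k K (e + 1)) (p : Germ k K) {φ : K}
    (hφ : ∀ a : k, φ ≠ algebraMap k K a) {κ lam : Kˣ →₀ ℝ} (hκ : CanCartier F p κ) :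
    (∀ v, IsDiv (e + 1) p v → OnX p v → ∀ m, OrdR v (eta F φ) m → ∀ α : k,
      (InFibre v φ α → mult v (mdiv κ lam φ α) = (mult v lam + m) + 1) ∧
      (¬ InFibre v φ α →
        (∀ n, FibreMult k v φ n → mult v (mdiv κ lam φ α) = (mult v lam + m) + 1 - n) ∧
        ((∀ n, ¬ FibreMult k v φ n) → mult v (mdiv κ lam φ α) = mult v lam + m))) ∧
    ∀ t : ℝ, 0 ≤ t → ((∀ v, IsDiv (e + 1) p v → FolLc F φ κ lam t v) ↔
      ∀ α : k, PairLc F p κ (mdiv κ lam φ α) t) := by
  refine ⟨fun v hv hX m hm α => ?_, fun t ht => lc_iff F p hφ κ lam ht⟩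
  obtain ⟨m', hm', h⟩ := coeff_gen (lam := lam) hφ hκ α hv hX
  rw [hm.unique hm']
  rcases h with ⟨h1, h2⟩ | ⟨h1, h2⟩
  · exact ⟨fun _ => h2, fun h3 => absurd h1 h3⟩
  · refine ⟨fun h3 => absurd h3 h1, fun _ => ?_⟩
    rcases h2 with ⟨n, -, h4, h5, h6⟩ | ⟨h4, h5⟩
    · exact ⟨fun n' hn' => by rw [h4 n' hn']; exact h6, fun h7 => absurd h5 (h7 n)⟩
    · exact ⟨fun n' hn' => absurd hn' (h4 n'), fun _ => h5⟩

end Pool.Agent.H72Pen
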