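import Mathlib

/-!
# Polynomial relations of small degree and derivations

PROOF. Induction on the total degree of `P`. If `pderiv j P = 0` for all `j ∈ S`, take `Q = P`. If
not, take `j ∈ S` with `P' = pderiv j P ≠ 0`; its total degree is smaller (the coefficient of `P'` at
`m` is `(m j + 1)` times the one of `P` at `m + e_j`), and `0 < v (P' (y))`: chain rule
`δ_j (P (y)) = ∑ i, (pderiv i P) (y) * δ_j (y_i)`, so `P' (y) = δ_j (P (y)) - ∑ i, (pderiv i P) (y) *
(δ_j (y_i) - [j = i])`, where all the terms have positive value (`0 ≤ v (R (y))` for all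
polynomials `R`).
-/

set_option autoImplicit false

noncomputable section

namespace Pool.Agent.H72Pen

variable {k K : Type} [Field k] [Field K] [Algebra k K]

private theorem totalDegree_pderiv_aux {n : ℕ} (j : Fin n) (P : MvPolynomial (Fin n) k)
    (h : MvPolynomial.pderiv j P ≠ 0) :
    (MvPolynomial.pderiv j P).totalDegree < P.totalDegree := by
  obtain ⟨m, hm1, hm2⟩ : ∃ m ∈ (MvPolynomial.pderiv j P).support,
      (MvPolynomial.pderiv j P).totalDegree = m.sum fun _ e => e := by
    have h1 : (MvPolynomial.pderiv j P).support.Nonempty := by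
      rwa [Finset.nonempty_iff_ne_empty, ne_eq, MvPolynomial.support_eq_empty]
    exact Finset.exists_mem_eq_sup _ h1 _
  have h2 : m + Finsupp.single j 1 ∈ P.support := by
    rw [MvPolynomial.mem_support_iff] at hm1 ⊢
    rw [MvPolynomial.coeff_pderiv] at hm1
    exact left_ne_zero_of_mul hm1
  have h3 := MvPolynomial.le_totalDegree h2
  rw [Finsupp.sum_add_index' (fun _ => rfl) (fun _ _ _ => rfl),
    Finsupp.sum_single_index rfl] at h3
  omega

private theorem chain_aux {n : ℕ} (y : Fin n → K) (D : Derivation k K K)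
    (P : MvPolynomial (Fin n) k) :
    D (MvPolynomial.aeval y P) =
      ∑ i, MvPolynomial.aeval y (MvPolynomial.pderiv i P) * D (y i) := by
  induction P using MvPolynomial.induction_on with
  | C c => simp
  | add p q hp hq =>
    rw [map_add, map_add, hp, hq, ← Finset.sum_add_distrib]
    refine Finset.sum_congr rfl fun i _ => ?_
    rw [map_add, map_add, add_mul]
  | mul_X p j hp =>
    rw [map_mul, Derivation.leibniz, hp, MvPolynomial.aeval_X, smul_eq_mul, smul_eq_mul]
    have h : ∀ i, MvPolynomial.aeval y (MvPolynomial.pderiv i (p * MvPolynomial.X j)) * D (y i) =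
        MvPolynomial.aeval y p * (if i = j then D (y i) else 0) +
          y j * (MvPolynomial.aeval y (MvPolynomial.pderiv i p) * D (y i)) := by
      intro i
      rw [Derivation.leibniz, MvPolynomial.pderiv_X, map_add, smul_eq_mul, smul_eq_mul, map_mul,
        map_mul, MvPolynomial.aeval_X]
      by_cases hi : i = j
      · subst hi
        simp
        ring
      · rw [Pi.single_eq_of_ne (Ne.symm hi), if_neg hi]
        simp
        ring
    rw [Finset.sum_congr rfl fun i _ => h i, Finset.sum_add_distrib, ← Finset.mul_sum,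
      ← Finset.mul_sum]
    simp

private theorem nonneg_aux {v : AddValuation K (WithTop ℤ)}
    (hk : ∀ c : k, 0 ≤ v (algebraMap k K c)) {n : ℕ} (y : Fin n → K) (hy : ∀ i, 0 ≤ v (y i))
    (P : MvPolynomial (Fin n) k) : 0 ≤ v (MvPolynomial.aeval y P) := by
  induction P using MvPolynomial.induction_on with
  | C c =>
    rw [MvPolynomial.aeval_C]
    exact hk c
  | add p q hp hq =>
    rw [map_add]
    exact v.map_le_add hp hq
  | mul_X p j hp =>
    rw [map_mul, MvPolynomial.aeval_X, v.map_mul]
    exact add_nonneg hp (hy j)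

private theorem step_aux {v : AddValuation K (WithTop ℤ)}
    (hk : ∀ c : k, 0 ≤ v (algebraMap k K c))
    {n : ℕ} (y : Fin n → K) (hy : ∀ i, 0 ≤ v (y i)) (j : Fin n)
    (δ : Derivation k K K) (h1 : ∀ f, 0 < v f → 0 < v (δ f))
    (h2 : ∀ i, 0 < v (δ (y i) - if j = i then 1 else 0))
    (P : MvPolynomial (Fin n) k) (hP : 0 < v (MvPolynomial.aeval y P)) :
    0 < v (MvPolynomial.aeval y (MvPolynomial.pderiv j P)) := by
  have h3 : MvPolynomial.aeval y (MvPolynomial.pderiv j P) = δ (MvPolynomial.aeval y P) +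
      ∑ i, -(MvPolynomial.aeval y (MvPolynomial.pderiv i P) *
        (δ (y i) - if j = i then 1 else 0)) := by
    rw [chain_aux, ← Finset.sum_add_distrib]
    have h4 : ∀ i, MvPolynomial.aeval y (MvPolynomial.pderiv i P) * δ (y i) +
        -(MvPolynomial.aeval y (MvPolynomial.pderiv i P) * (δ (y i) - if j = i then 1 else 0)) =
        if j = i then MvPolynomial.aeval y (MvPolynomial.pderiv i P) else 0 := by
      intro i
      split_ifs <;> ring
    rw [Finset.sum_congr rfl fun i _ => h4 i]
    simp
  rw [h3]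
  refine v.map_lt_add (h1 _ hP) (v.map_lt_sum' (WithTop.coe_lt_top (0 : ℤ)) fun i _ => ?_)
  rw [v.map_neg, v.map_mul]
  exact lt_of_lt_of_le (h2 i) (le_add_of_nonneg_left (nonneg_aux hk y hy _))

theorem exists_pderiv_zero {v : AddValuation K (WithTop ℤ)} (hk : ∀ c : k, 0 ≤ v (algebraMap k K c))
    {n : ℕ} (y : Fin n → K) (hy : ∀ i, 0 ≤ v (y i)) (S : Set (Fin n))
    (δ : Fin n → Derivation k K K) (h1 : ∀ j ∈ S, ∀ f, 0 < v f → 0 < v (δ j f))
    (h2 : ∀ j ∈ S, ∀ i, 0 < v (δ j (y i) - if j = i then 1 else 0))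
    (P : MvPolynomial (Fin n) k) (hP0 : P ≠ 0) (hP : 0 < v (MvPolynomial.aeval y P)) :
    ∃ Q : MvPolynomial (Fin n) k, Q ≠ 0 ∧ 0 < v (MvPolynomial.aeval y Q) ∧
      ∀ j ∈ S, MvPolynomial.pderiv j Q = 0 := by
  induction hd : P.totalDegree using Nat.strong_induction_on generalizing P with
  | _ d ih =>
    by_cases h : ∀ j ∈ S, MvPolynomial.pderiv j P = 0
    · exact ⟨P, hP0, hP, h⟩
    · push Not at h
      obtain ⟨j, hj, hne⟩ := h
      exact ih _ (hd ▸ totalDegree_pderiv_aux j P hne) _ hne
        (step_aux hk y hy j (δ j) (h1 j hj) (h2 j hj) P hP) rfl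

end Pool.Agent.H72Pen
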