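import Mathlib

/-!
# A valuation which is trivial on a transcendence basis is trivial
-/

set_option autoImplicit false

noncomputable section

namespace Pool.Agent.H72Pen

variable {k K : Type} [Field k] [Field K] [Algebra k K]

theorem false_of_triv {v : AddValuation K (WithTop ℤ)} {d : ℕ} (hd : Algebra.trdeg k K = d)
    (hs : ∃ f : K, v f = 1) (y : Fin d → K)
    (hy : ∀ P : MvPolynomial (Fin d) k, P ≠ 0 → v (MvPolynomial.aeval y P) = 0) : False := by
  have hind : AlgebraicIndependent k y := by
    rw [algebraicIndependent_iff]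
    intro P hP
    by_contra h0
    have h1 := hy P h0
    rw [hP, v.map_zero] at h1
    exact absurd h1 WithTop.top_ne_zero
  have hb : IsTranscendenceBasis k y := by
    refine hind.isTranscendenceBasis_of_trdeg_le_of_finite ?_
    rw [hd, Cardinal.mk_fin]
  obtain ⟨f, hf⟩ := hs
  have hf0 : f ≠ 0 := by
    rintro rfl
    rw [v.map_zero] at hf
    exact absurd hf WithTop.top_ne_one
  have halg : IsAlgebraic (Algebra.adjoin k (Set.range y)) f := hb.isAlgebraic.isAlgebraic f
  obtain ⟨t, ht, r, hr, hft⟩ :=
    halg.exists_nonzero_eq_adjoin_mul (mem_nonZeroDivisors_of_ne_zero hf0)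
  have hA : ∀ a : Algebra.adjoin k (Set.range y), a ≠ 0 → v (a : K) = 0 := by
    rintro ⟨a, ha⟩ ha0
    have h1 := ha
    rw [Algebra.adjoin_range_eq_range_aeval] at h1
    obtain ⟨P, hP⟩ := h1
    have hP0 : P ≠ 0 := by
      rintro rfl
      exact ha0 (Subtype.ext (hP.symm.trans (map_zero _)))
    have h2 := hy P hP0
    rwa [show MvPolynomial.aeval y P = a from hP] at h2
  have hA' : ∀ a : Algebra.adjoin k (Set.range y), 0 ≤ v (a : K) := by
    intro a
    rcases eq_or_ne a 0 with rfl | h
    · rw [show ((0 : Algebra.adjoin k (Set.range y)) : K) = 0 from rfl, v.map_zero]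
      exact le_top
    · rw [hA a h]
  have ht0 : 0 ≤ v t := by
    refine Algebra.adjoin_induction (p := fun x _ => 0 ≤ v x) ?_ ?_ ?_ ?_ ht
    · intro x hx
      rw [Set.mem_singleton_iff.1 hx, hf]
      exact zero_le_one
    · intro a
      exact hA' a
    · intro x z _ _ hx hz
      exact v.map_le_add hx hz
    · intro x z _ _ hx hz
      rw [v.map_mul]
      exact add_nonneg hx hz
  have h2 := congrArg v hft
  rw [v.map_mul, hf,
    show v (algebraMap (Algebra.adjoin k (Set.range y)) K r) = 0 from hA r hr] at h2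
  have h3 : (1 : WithTop ℤ) ≤ 1 + v t := le_add_of_nonneg_right ht0
  rw [h2] at h3
  exact absurd h3 (by decide)

end Pool.Agent.H72Pen
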