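import Pool.Agent.H72Pen.Dual
import Pool.Agent.H72Pen.PolyM
import Pool.Agent.H72Pen.Triv

/-!
# Logarithmic bases at a divisor
-/

set_option autoImplicit false

noncomputable section

namespace Pool.Agent.H72Pen

open IsLocalRing Pool.Agent.H72Acc

variable {k K : Type} [Field k] [Field K] [Algebra k K] {d e : ℕ}

/-- A discrete valuation which is trivial on the constants. -/
structure DV (k : Type) {K : Type} [Field k] [Field K] [Algebra k K]
    (v : AddValuation K (WithTop ℤ)) : Prop where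
  const : ∀ c : k, 0 ≤ v (algebraMap k K c)
  surj : ∃ f : K, v f = 1

theorem IsDiv.dv {p : Germ k K} {v : AddValuation K (WithTop ℤ)} (hv : IsDiv d p v) : DV k v :=
  ⟨fun c => hv.nonneg _ (p.ring.algebraMap_mem c), hv.surj⟩

theorem val_const {v : AddValuation K (WithTop ℤ)}
    (hv : DV k v) {c : k} (hc : c ≠ 0) : v (algebraMap k K c) = 0 := by
  have h1 := hv.const
  have h2 : v (algebraMap k K c) + v (algebraMap k K c⁻¹) = 0 := by
    rw [← v.map_mul, ← map_mul, mul_inv_cancel₀ hc, map_one, v.map_one]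
  have h3 : v (algebraMap k K c) ≤ 0 := by
    rw [← h2]
    exact le_add_of_nonneg_right (h1 _)
  exact le_antisymm h3 (h1 c)

/-- There are functions with Jacobian of the smallest order. -/
theorem exists_jac {F : Frame k K d} {v : AddValuation K (WithTop ℤ)} {a : ℤ}
    (ha : CanOrd F v a) : ∃ x : Fin d → K, (∀ j, 0 ≤ v (x j)) ∧
      v (F.jac x) = ((-a : ℤ) : WithTop ℤ) := by
  by_contra hcon
  push Not at hcon
  have h1 := ha.2 (show (a - 1 : ℤ) ∈ _ from fun f hf => by
    have h2 := ha.1 f hf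
    have h3 := hcon f hf
    rcases eq_or_ne (v (F.jac f)) ⊤ with h4 | h4
    · rw [h4]
      exact le_top
    · obtain ⟨y, hy⟩ := WithTop.ne_top_iff_exists.1 h4
      rw [← hy] at h2 h3 ⊢
      have h5 : -a ≤ y := WithTop.coe_le_coe.1 h2
      have h6 : y ≠ -a := fun h => h3 (by rw [h])
      exact WithTop.coe_le_coe.2 (by omega))
  omega

theorem lt_of_ge_ne {v : AddValuation K (WithTop ℤ)} {y : K} {m : ℤ}
    (h1 : ((m : ℤ) : WithTop ℤ) ≤ v y) (h2 : v y ≠ ((m : ℤ) : WithTop ℤ)) :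
    ((m + 1 : ℤ) : WithTop ℤ) ≤ v y := by
  rcases eq_or_ne (v y) ⊤ with h4 | h4
  · rw [h4]
    exact le_top
  · obtain ⟨z, hz⟩ := WithTop.ne_top_iff_exists.1 h4
    rw [← hz] at h1 h2 ⊢
    have h5 : m ≤ z := WithTop.coe_le_coe.1 h1
    have h6 : z ≠ m := fun h => h2 (by rw [h])
    exact WithTop.coe_le_coe.2 (by omega)

theorem val_inv_mul_pos {v : AddValuation K (WithTop ℤ)} {x y : K} {m : ℤ}
    (hx : v x = ((m : ℤ) : WithTop ℤ)) (hy : ((m + 1 : ℤ) : WithTop ℤ) ≤ v y) :
    0 < v (x⁻¹ * y) := by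
  have hx0 : x ≠ 0 := by
    rintro rfl
    rw [v.map_zero] at hx
    exact WithTop.top_ne_coe hx
  have h1 : v x + v (x⁻¹ * y) = v y := by
    rw [← v.map_mul, ← mul_assoc, mul_inv_cancel₀ hx0, one_mul]
  rw [← h1, hx] at hy
  rcases eq_or_ne (v (x⁻¹ * y)) ⊤ with h4 | h4
  · rw [h4]
    exact WithTop.coe_lt_top _
  · obtain ⟨z, hz⟩ := WithTop.ne_top_iff_exists.1 h4
    rw [← hz, ← WithTop.coe_add] at hy
    have h5 : m + 1 ≤ m + z := WithTop.coe_le_coe.1 hy
    rw [← hz]
    exact WithTop.coe_lt_coe.2 (by omega)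

theorem support_of_pderiv [CharZero k] {n : ℕ} {Q : MvPolynomial (Fin n) k} {j : Fin n}
    (h : MvPolynomial.pderiv j Q = 0) {m : Fin n →₀ ℕ} (hm : m ∈ Q.support) : m j = 0 := by
  by_contra h0
  obtain ⟨m', hm'⟩ : ∃ m' : Fin n →₀ ℕ, m = m' + Finsupp.single j 1 :=
    ⟨m - Finsupp.single j 1, by
      rw [tsub_add_cancel_of_le]
      exact Finsupp.single_le_iff.2 (by omega)⟩
  have h1 := MvPolynomial.coeff_pderiv (i := j) Q m'
  rw [h, MvPolynomial.coeff_zero, ← hm'] at h1
  have h2 := mul_eq_zero.1 h1.symm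
  rcases h2 with h2 | h2
  · exact MvPolynomial.mem_support_iff.1 hm h2
  · have h3 : ((m' j + 1 : ℕ) : k) = 0 := by
      rw [← h2]
      push_cast
      ring
    exact Nat.cast_ne_zero.2 (Nat.succ_ne_zero _) h3

/-- One of the functions can be taken in the maximal ideal of the valuation ring. -/
theorem exists_jac_pos [CharZero k] {F : Frame k K d} {v : AddValuation K (WithTop ℤ)}
    (hv : DV k v) {a : ℤ} (ha : CanOrd F v a) :
    ∃ x : Fin d → K, (∀ j, 0 ≤ v (x j)) ∧ (∃ j, 0 < v (x j)) ∧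
      v (F.jac x) = ((-a : ℤ) : WithTop ℤ) := by
  classical
  by_contra hcon
  push Not at hcon
  obtain ⟨x, hx, hjac⟩ := exists_jac ha
  have hjac0 : F.jac x ≠ 0 := by
    intro h
    rw [h, v.map_zero] at hjac
    exact WithTop.top_ne_coe hjac
  refine false_of_triv F.trdeg hv.surj x fun P hP => ?_
  have hpoly : ∀ P : MvPolynomial (Fin d) k, 0 ≤ v (MvPolynomial.aeval x P) := by
    intro P
    rw [MvPolynomial.aeval_def, MvPolynomial.eval₂_eq']
    refine v.map_le_sum fun m _ => ?_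
    rw [v.map_mul, val_prod]
    refine add_nonneg (hv.const _) (Finset.sum_nonneg fun j _ => ?_)
    rw [v.map_pow]
    exact nsmul_nonneg (hx j) _
  refine le_antisymm (not_lt.1 fun hlt => ?_) (hpoly P)
  obtain ⟨Q, hQ0, hQ, hQd⟩ := exists_pderiv_zero
    hv.const x hx Set.univ (dual F x)
    (fun j _ f hf => by
      rw [dual_apply]
      refine val_inv_mul_pos hjac (lt_of_ge_ne (ha.1 _ fun l => ?_) (hcon _ (fun l => ?_) ⟨j, ?_⟩))
      · by_cases hl : l = j
        · rw [hl, Function.update_self]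
          exact hf.le
        · rw [Function.update_of_ne hl]
          exact hx l
      · by_cases hl : l = j
        · rw [hl, Function.update_self]
          exact hf.le
        · rw [Function.update_of_ne hl]
          exact hx l
      · rw [Function.update_self]
        exact hf)
    (fun j _ i => by
      rw [dual_self hjac0, sub_self, v.map_zero]
      exact WithTop.coe_lt_top _) P hP hlt
  have h1 : Q = MvPolynomial.C (Q.coeff 0) := by
    ext m
    rw [MvPolynomial.coeff_C]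
    by_cases hm : m = 0
    · rw [hm, if_pos rfl]
    · rw [if_neg (Ne.symm hm)]
      by_contra h2
      refine hm (Finsupp.ext fun j => ?_)
      rw [support_of_pderiv (hQd j (Set.mem_univ j)) (MvPolynomial.mem_support_iff.2 h2)]
      rfl
  have h2 : Q.coeff 0 ≠ 0 := by
    intro h3
    rw [h3, map_zero] at h1
    exact hQ0 h1
  rw [h1, MvPolynomial.aeval_C, val_const hv h2] at hQ
  exact lt_irrefl _ hQ

/-- A logarithmic basis: a uniformizer and `e` units. -/
theorem exists_log_basis [CharZero k] {F : Frame k K (e + 1)}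
    {v : AddValuation K (WithTop ℤ)} (hv : DV k v) {a : ℤ} (ha : CanOrd F v a) :
    ∃ (π : K) (y : Fin e → K), v π = 1 ∧ (∀ j, v (y j) = 0) ∧
      v (F.jac (Fin.cons π y : Fin (e + 1) → K)) = ((-a : ℤ) : WithTop ℤ) := by
  classical
  obtain ⟨x, hx, ⟨j0, hj0⟩, hjac⟩ := exists_jac_pos hv ha
  have h1 := log_le hv.surj ha x
  rw [hjac] at h1
  have hfin : ∀ j, ∃ n : ℤ, v (x j) = ((n : ℤ) : WithTop ℤ) := by
    intro j
    rcases eq_or_ne (v (x j)) ⊤ with h4 | h4
    · exfalso
      have h5 : ∑ j, v (x j) = ⊤ := by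
        rw [WithTop.sum_eq_top]
        exact ⟨j, Finset.mem_univ j, h4⟩
      rw [h5, top_add] at h1
      exact absurd h1 (by simp)
    · obtain ⟨z, hz⟩ := WithTop.ne_top_iff_exists.1 h4
      exact ⟨z, hz.symm⟩
  choose n hn using hfin
  simp only [hn] at h1
  rw [← coe_sum_int, ← WithTop.coe_add] at h1
  have h2 : ∑ j, n j + (-a - 1) ≤ -a := WithTop.coe_le_coe.1 h1
  have hn0 : ∀ j, 0 ≤ n j := by
    intro j
    have h3 := hx j
    rw [hn] at h3
    exact WithTop.coe_le_coe.1 h3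
  have hn1 : 1 ≤ n j0 := by
    rw [hn] at hj0
    have h3 : 0 < n j0 := WithTop.coe_lt_coe.1 hj0
    omega
  have hsum : ∀ j, j ≠ j0 → n j0 + n j ≤ ∑ j, n j := by
    intro j hj
    rw [← Finset.sum_pair (f := n) (Ne.symm hj)]
    exact Finset.sum_le_sum_of_subset_of_nonneg (Finset.subset_univ _) fun i _ _ => hn0 i
  have hj1 : n j0 = 1 := by
    have h3 : n j0 ≤ ∑ j, n j := Finset.single_le_sum (fun i _ => hn0 i) (Finset.mem_univ j0)
    omega
  have hj2 : ∀ j, j ≠ j0 → n j = 0 := by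
    intro j hj
    have h3 := hsum j hj
    have h4 := hn0 j
    omega
  obtain ⟨z, hz⟩ : ∃ z : Fin (e + 1) → K, z = fun j => x (Equiv.swap 0 j0 j) := ⟨_, rfl⟩
  refine ⟨z 0, fun j => z j.succ, ?_, fun j => ?_, ?_⟩
  · rw [hz]
    simp only [Equiv.swap_apply_left]
    rw [hn, hj1]
    rfl
  · rw [hz]
    simp only
    rw [hn, hj2]
    · rfl
    · intro h3
      have h4 : j.succ = (Equiv.swap 0 j0).symm j0 := (Equiv.eq_symm_apply _).2 h3
      rw [Equiv.symm_swap, Equiv.swap_apply_right] at h4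
      exact Fin.succ_ne_zero j h4
  · have h3 : (Fin.cons (z 0) fun j => z j.succ : Fin (e + 1) → K) = z :=
      Fin.cons_self_tail z
    rw [h3, hz, val_jac_perm, hjac]

end Pool.Agent.H72Pen
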