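import Pool.Agent.H72Pen.Core
import Pool.Agent.H72Pen.Exists

/-!
# Reduction to log canonical thresholds
-/

set_option autoImplicit false

noncomputable section

namespace Pool.Agent.H72Pen

open IsLocalRing Pool.Agent.H72Acc

variable {k K : Type} [Field k] [Field K] [Algebra k K] {d e : ℕ}

theorem ord_zero (v : AddValuation K (WithTop ℤ)) : ord v 0 = 0 := by
  unfold ord
  rw [v.map_zero]
  rfl

theorem mult_prin (v : AddValuation K (WithTop ℤ)) (f : K) : mult v (prin f) = ord v f := by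
  unfold prin
  split
  · rename_i h
    rw [h, map_zero, ord_zero]
    simp
  · unfold mult
    rw [Finsupp.linearCombination_single, one_smul]
    rfl

theorem mult_mdiv (v : AddValuation K (WithTop ℤ)) (κ lam : Kˣ →₀ ℝ) (φ : K) (α : k) :
    mult v (mdiv κ lam φ α) = mult v lam - mult v κ + ord v φ + ord v (mem φ α) := by
  unfold mdiv
  rw [map_add, map_add, map_sub, mult_prin, mult_prin]

/-- `ord (1 + β φ) > 0` is possible only if `ord φ = 0`. -/
theorem ord_mem_nonpos {v : AddValuation K (WithTop ℤ)} (hv : DV k v) {φ : K}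
    (h : ord v φ ≠ 0) {β : k} (hβ : mem φ β ≠ 0) : ord v (mem φ β) ≤ 0 := by
  by_contra hcon
  push Not at hcon
  by_cases hβ0 : β = 0
  · rw [hβ0] at hcon
    have h1 : mem φ (0 : k) = 1 := by
      unfold mem
      rw [map_zero, zero_mul, add_zero]
    rw [h1, ord_of_zero v.map_one] at hcon
    exact lt_irrefl _ hcon
  · have h1 : v (mem φ β) = ((ord v (mem φ β) : ℤ) : WithTop ℤ) := val_eq_ord v hβ
    have h2 : algebraMap k K β * φ = mem φ β + -1 := by
      unfold mem
      ring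
    have h3 : v (algebraMap k K β * φ) = 0 := by
      rw [h2, v.map_add_eq_of_lt_right, v.map_neg, v.map_one]
      rw [v.map_neg, v.map_one, h1]
      exact WithTop.coe_lt_coe.2 hcon
    rw [v.map_mul, val_const hv hβ0, zero_add] at h3
    exact h (ord_of_zero h3)

theorem mem_ne_zero {φ : K} (hφ : ∀ a : k, φ ≠ algebraMap k K a) (α : k) : mem φ α ≠ 0 := by
  intro h
  unfold mem at h
  by_cases hα : α = 0
  · rw [hα, map_zero, zero_mul, add_zero] at h
    exact one_ne_zero h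
  · have h2 : algebraMap k K α ≠ 0 := fun h =>
      hα ((algebraMap k K).injective (h.trans (map_zero _).symm))
    refine hφ (-α⁻¹) ?_
    rw [map_neg, map_inv₀]
    field_simp
    linear_combination h

theorem mem_zero (φ : K) : mem φ (0 : k) = 1 := by
  unfold mem
  rw [map_zero, zero_mul, add_zero]

/-- The consequences of `core` for the comparison with pairs. -/
theorem core_le [CharZero k] [IsAlgClosed k] {F : Frame k K (e + 1)}
    {v : AddValuation K (WithTop ℤ)} (hv : DV k v) {c : ℤ} (hc : CanOrd F v c) {φ : K}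
    (hφ : ∀ a : k, φ ≠ algebraMap k K a) :
    ∃ m C : ℤ, OrdR v (eta F φ) m ∧ m = C - (c + 1) + epsR v (eta F φ) m ∧
      (∃ α : k, C = ord v φ + ord v (mem φ α)) ∧ ∀ α : k, ord v φ + ord v (mem φ α) ≤ C := by
  obtain ⟨m, C, h1, h2, h3⟩ := core hv hc hφ
  refine ⟨m, C, h1, h2, ?_⟩
  rcases h3 with ⟨h4, h5, -⟩ | ⟨h4, -, h5, α, -, h6, h7⟩ | ⟨h4, h5, -, h6⟩
  · refine ⟨⟨0, ?_⟩, fun α => ?_⟩
    · rw [mem_zero, ord_of_zero v.map_one, add_zero, h5]
    · have h8 := ord_mem_nonpos hv h4 (mem_ne_zero hφ α)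
      omega
  · refine ⟨⟨α, ?_⟩, fun β => ?_⟩
    · rw [h4, zero_add, h6]
    · by_cases hβ : β = α
      · rw [hβ, h4, zero_add, h6]
      · rw [h4, h7 β hβ]
        omega
  · refine ⟨⟨0, ?_⟩, fun β => ?_⟩
    · rw [h4, h6, h5]
      rfl
    · rw [h4, h6, h5]
      rfl

theorem lc_iff [CharZero k] [IsAlgClosed k] (F : Frame k K (e + 1)) (p : Germ k K) {φ : K}
    (hφ : ∀ a : k, φ ≠ algebraMap k K a) (κ lam : Kˣ →₀ ℝ) {t : ℝ} (ht : 0 ≤ t) :
    (∀ v, IsDiv (e + 1) p v → FolLc F φ κ lam t v) ↔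
      ∀ α : k, PairLc F p κ (mdiv κ lam φ α) t := by
  constructor
  · intro h α v hv c hc
    obtain ⟨m, C, hm, hmC, -, hC⟩ := core_le hv.dv hc hφ
    have h1 := h v hv m c hm hc
    have h2 := hC α
    rw [mult_mdiv]
    have h4 : (m : ℝ) = (C : ℝ) - (c + 1) + epsR v (eta F φ) m := by
      exact_mod_cast hmC
    have h5 : t * ((ord v φ : ℝ) + ord v (mem φ α)) ≤ t * C :=
      mul_le_mul_of_nonneg_left (by exact_mod_cast h2) ht
    have h6 : t * (m : ℝ) = t * ((C : ℝ) - (c + 1) + epsR v (eta F φ) m) := by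
      rw [← h4]
    nlinarith
  · intro h v hv m c hm hc
    obtain ⟨m', C, hm', hmC, ⟨α, hα⟩, -⟩ := core_le hv.dv hc hφ
    have h1 : m = m' := hm.unique hm'
    subst h1
    have h2 := h α v hv c hc
    rw [mult_mdiv] at h2
    have h4 : (m : ℝ) = (C : ℝ) - (c + 1) + epsR v (eta F φ) m := by
      exact_mod_cast hmC
    have h5 : (C : ℝ) = ord v φ + ord v (mem φ α) := by
      exact_mod_cast hα
    have h6 : t * (m : ℝ) = t * ((C : ℝ) - (c + 1) + epsR v (eta F φ) m) := by
      rw [← h4]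
    have h7 : t * (C : ℝ) = t * ((ord v φ : ℝ) + ord v (mem φ α)) := by
      rw [h5]
    nlinarith

theorem Admissible.reduced {p : Germ k K} {φ : K} (h : Admissible d p φ) : Reduced d p φ := by
  rcases h with ⟨h1, h2⟩ | h
  · intro v hv _
    have := p.isLocal
    have hnu : (⟨φ, h1⟩ : p.ring) ∈ nonunits p.ring := by
      intro hu
      obtain ⟨y, hy⟩ := hu.exists_right_inv
      have h3 : φ * (y : K) = 1 := congrArg Subtype.val hy
      exact h2 (by rw [← eq_inv_of_mul_eq_one_right h3]; exact y.2)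
    have hφ : 0 ≤ ord v φ := by
      by_cases h0 : φ = 0
      · rw [h0, ord_zero]
      · have h3 := hv.nonneg φ h1
        rw [val_eq_ord v h0] at h3
        exact WithTop.coe_le_coe.1 h3
    refine ⟨by omega, fun c hc => ?_⟩
    have hu : IsUnit ((⟨φ, h1⟩ : p.ring) - algebraMap k p.ring c) := by
      by_contra h3
      have h4 := IsLocalRing.nonunits_add hnu (show -((⟨φ, h1⟩ : p.ring) -
        algebraMap k p.ring c) ∈ nonunits p.ring from fun h => h3 (by simpa using h.neg))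
      refine h4 ?_
      rw [neg_sub, add_sub_cancel]
      exact (isUnit_iff_ne_zero.2 hc).map (algebraMap k p.ring)
    obtain ⟨y, hy⟩ := hu.exists_right_inv
    have h5 : (φ - algebraMap k K c) * (y : K) = 1 := congrArg Subtype.val hy
    have h6 : v (φ - algebraMap k K c) + v (y : K) = 0 := by
      rw [← v.map_mul, h5, v.map_one]
    have h7 : v (φ - algebraMap k K c) = 0 := by
      refine le_antisymm ?_
        (hv.nonneg _ (p.ring.sub_mem h1 (p.ring.algebraMap_mem c)))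
      rw [← h6]
      exact le_add_of_nonneg_right (hv.nonneg _ y.2)
    rw [ord_of_zero h7]
    exact zero_le_one
  · exact h

/-- The coefficients of the divisors of the pairs. -/
theorem coeff_mdiv [CharZero k] [IsAlgClosed k] {F : Frame k K (e + 1)} {p : Germ k K} {φ : K}
    (hφ : ∀ a : k, φ ≠ algebraMap k K a) {κ lam : Kˣ →₀ ℝ}
    (hκ : CanCartier F p κ) (hred : Reduced (e + 1) p φ) (α : k)
    {v : AddValuation K (WithTop ℤ)} (hv : IsDiv (e + 1) p v) (hX : OnX p v) :
    ∃ m, OrdR v (eta F φ) m ∧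
      ((InFibre v φ α ∧ mult v (mdiv κ lam φ α) = (mult v lam + m) + 1) ∨
        (¬ InFibre v φ α ∧ mult v (mdiv κ lam φ α) = mult v lam + m)) := by
  obtain ⟨c, hc⟩ := exists_canOrd F hv hX
  have hφ0 : φ ≠ 0 := by
    have h1 := hφ 0
    rwa [map_zero] at h1
  obtain ⟨m, C, h1, h2, h3⟩ := core hv.dv hc hφ
  refine ⟨m, h1, ?_⟩
  obtain ⟨hr1, hr2⟩ := hred v hv hX
  have hκ1 := hκ v hv hX c hc
  have h4 : (m : ℝ) = (C : ℝ) - (c + 1) + epsR v (eta F φ) m := by
    exact_mod_cast h2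
  have key : (¬ InFibre v φ α ∧
        1 - epsR v (eta F φ) m - C + ord v φ + ord v (mem φ α) = 0) ∨
      (InFibre v φ α ∧ 1 - epsR v (eta F φ) m - C + ord v φ + ord v (mem φ α) = 1) := by
    unfold InFibre
    rcases h3 with ⟨h5, h6, h7⟩ | ⟨h5, h6, h7, β, hβ0, h8, h9⟩ | ⟨h5, h6, h7, h8⟩
    · rw [h6, h7]
      by_cases hα : α = 0
      · right
        rw [hα, mem_zero, ord_of_zero v.map_one]
        refine ⟨?_, by omega⟩
        rcases lt_or_gt_of_ne h5 with h10 | h10
        · exact Or.inr (Or.inr ⟨rfl, h10⟩)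
        · exact Or.inl h10
      · rcases lt_or_gt_of_ne h5 with h10 | h10
        · left
          have h11 : ord v φ = -1 := by omega
          have h12 : v (mem φ α) = ((-1 : ℤ) : WithTop ℤ) := by
            have h13 : v (algebraMap k K α * φ) = ((-1 : ℤ) : WithTop ℤ) := by
              rw [v.map_mul, val_const hv.dv hα, zero_add, val_eq_ord v hφ0, h11]
            unfold mem
            rw [v.map_add_eq_of_lt_right, h13]
            rw [h13, v.map_one]
            exact WithTop.coe_lt_coe.2 (by norm_num)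
          rw [ord_of_eq h12]
          refine ⟨?_, by omega⟩
          rintro (h | h | ⟨h, -⟩)
          · omega
          · omega
          · exact hα h
        · right
          have h12 : v (mem φ α) = 0 := by
            have h13 : v (algebraMap k K α * φ) = ((ord v φ : ℤ) : WithTop ℤ) := by
              rw [v.map_mul, val_const hv.dv hα, zero_add]
              exact val_eq_ord v hφ0
            unfold mem
            rw [v.map_add_eq_of_lt_left, v.map_one]
            rw [h13, v.map_one]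
            exact WithTop.coe_lt_coe.2 h10
          rw [ord_of_zero h12]
          exact ⟨Or.inl h10, by omega⟩
    · have h10 : C ≤ 1 := by
        have h11 := hr2 (-β⁻¹) (neg_ne_zero.2 (inv_ne_zero hβ0))
        have hβ1 : algebraMap k K β ≠ 0 := fun h =>
          hβ0 ((algebraMap k K).injective (h.trans (map_zero _).symm))
        have h12 : mem φ β = algebraMap k K β * (φ - algebraMap k K (-β⁻¹)) := by
          unfold mem
          rw [map_neg, map_inv₀]
          field_simp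
          ring
        have h13 : v (mem φ β) = ((ord v (φ - algebraMap k K (-β⁻¹)) : ℤ) : WithTop ℤ) := by
          rw [h12, v.map_mul, val_const hv.dv hβ0, zero_add]
          exact val_eq_ord v (sub_ne_zero.2 (hφ _))
        rw [h8, ord_of_eq h13]
        exact h11
      rw [h5, h6]
      by_cases hαβ : α = β
      · right
        rw [hαβ, ← h8]
        exact ⟨Or.inr (Or.inl h7), by omega⟩
      · left
        rw [h9 α hαβ]
        refine ⟨?_, by omega⟩
        rintro (h | h | ⟨-, h⟩) <;> omega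
    · left
      rw [h5, h6, h7, h8]
      refine ⟨?_, rfl⟩
      rintro (h | h | ⟨-, h⟩) <;> omega
  have h15 : mult v (mdiv κ lam φ α) = (mult v lam + m) +
      (1 - epsR v (eta F φ) m - C + ord v φ + ord v (mem φ α)) := by
    rw [mult_mdiv, hκ1, h4]
    ring
  rcases key with ⟨h, h16⟩ | ⟨h, h16⟩
  · right
    have h14 : (1 : ℝ) - epsR v (eta F φ) m - C + ord v φ + ord v (mem φ α) = 0 := by
      exact_mod_cast h16
    exact ⟨h, by rw [h15, h14, add_zero]⟩
  · left
    have h14 : (1 : ℝ) - epsR v (eta F φ) m - C + ord v φ + ord v (mem φ α) = 1 := by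
      exact_mod_cast h16
    exact ⟨h, by rw [h15, h14]⟩

/-- The main theorem. -/
theorem local_iff [CharZero k] [IsAlgClosed k] (F : Frame k K (e + 1)) (p : Germ k K) {φ : K}
    (hφ : ∀ a : k, φ ≠ algebraMap k K a) {κ lam : Kˣ →₀ ℝ} (hred : Admissible (e + 1) p φ)
    (hκ : CanCartier F p κ) :
    (∀ v, IsDiv (e + 1) p v → OnX p v → ∀ m, OrdR v (eta F φ) m → ∀ α : k,
      (InFibre v φ α → mult v (mdiv κ lam φ α) = (mult v lam + m) + 1) ∧
      (¬ InFibre v φ α → mult v (mdiv κ lam φ α) = mult v lam + m)) ∧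
    ∀ t : ℝ, 0 ≤ t → ((∀ v, IsDiv (e + 1) p v → FolLc F φ κ lam t v) ↔
      ∀ α : k, PairLc F p κ (mdiv κ lam φ α) t) := by
  refine ⟨fun v hv hX m hm α => ?_, fun t ht => lc_iff F p hφ κ lam ht⟩
  obtain ⟨m', hm', h⟩ := coeff_mdiv (lam := lam) hφ hκ hred.reduced α hv hX
  rw [hm.unique hm']
  rcases h with ⟨h1, h2⟩ | ⟨h1, h2⟩
  · exact ⟨fun _ => h2, fun h3 => absurd h1 h3⟩
  · exact ⟨fun h3 => absurd h3 h1, fun _ => h2⟩

theorem pairLc_of_le {F : Frame k K d} {p : Germ k K} {κ μ : Kˣ →₀ ℝ} {s t : ℝ} (hs0 : 0 ≤ s)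
    (hs1 : s ≤ 1) (hs : PairLc F p κ μ s) (hst : s ≤ t) (ht : t ≤ lct F p κ μ) :
    PairLc F p κ μ t := by
  intro v hv c hc
  have h1 := hs v hv c hc
  rcases le_or_gt (mult v μ) 0 with h2 | h2
  · exact (mul_le_mul_of_nonpos_right hst h2).trans h1
  · rw [← le_div_iff₀ h2]
    refine ht.trans (csSup_le ⟨s, hs0, hs1, hs⟩ fun x hx => ?_)
    rw [le_div_iff₀ h2]
    exact hx.2.2 v hv c hc

theorem Dcc.union {A B : Set ℝ} (hA : Dcc A) (hB : Dcc B) : Dcc (A ∪ B) := by
  intro g hg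
  by_contra hcon
  push Not at hcon
  by_cases h : ∃ᶠ n in Filter.atTop, g n ∈ A
  · obtain ⟨ψ, hψ, h1⟩ := Filter.extraction_of_frequently_atTop h
    obtain ⟨n, hn⟩ := hA (fun n => g (ψ n)) (hg.comp_strictMono hψ)
    exact hn (h1 n)
  · rw [Filter.not_frequently, Filter.eventually_atTop] at h
    obtain ⟨N, hN⟩ := h
    obtain ⟨n, hn⟩ := hB (fun n => g (n + N)) fun m n hmn => hg (by omega)
    rcases hcon (n + N) with h1 | h1
    · exact hN _ (Nat.le_add_left N n) h1
    · exact hn h1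

theorem Dcc.singleton (a : ℝ) : Dcc {a} := by
  intro g hg
  by_contra hcon
  push Not at hcon
  have h0 : g 0 = a := hcon 0
  have h1 : g 1 = a := hcon 1
  have h2 := hg (show 0 < 1 from Nat.zero_lt_one)
  rw [h0, h1] at h2
  exact lt_irrefl _ h2

theorem Dcc.add_one {Γ : Set ℝ} (hΓ : Dcc Γ) : Dcc {x | x - 1 ∈ Γ} := by
  intro g hg
  obtain ⟨n, hn⟩ := hΓ (fun n => g n - 1) fun m n hmn => sub_lt_sub_right (hg hmn) 1
  exact ⟨n, hn⟩

theorem Acc.insert {Γ : Set ℝ} (hΓ : Acc Γ) (a : ℝ) : Acc {x | x = a ∨ x ∈ Γ} := by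
  intro g hg
  by_contra hcon
  push Not at hcon
  obtain ⟨N, hN⟩ : ∃ N, ∀ n, g (n + N) ≠ a := by
    by_cases h : ∃ n0, g n0 = a
    · obtain ⟨n0, h0⟩ := h
      refine ⟨n0 + 1, fun n => ?_⟩
      have h1 := hg (show n0 < n + (n0 + 1) by omega)
      rw [h0] at h1
      exact h1.ne'
    · push Not at h
      exact ⟨0, fun n => h _⟩
  obtain ⟨n, hn⟩ := hΓ (fun n => g (n + N)) fun m n hmn => hg (by omega)
  rcases hcon (n + N) with h | h
  · exact hN n h
  · exact hn h

/-- The elements of a set and their limits from above. -/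
def closureAbove (L : Set ℝ) : Set ℝ := {x | ∀ ε > 0, ∃ y ∈ L, x ≤ y ∧ y < x + ε}

theorem Acc.closureAbove {L : Set ℝ} (hL : Acc L) : Acc (closureAbove L) := by
  intro g hg
  by_contra hcon
  push Not at hcon
  have h1 : ∀ n, ∃ y ∈ L, g n ≤ y ∧ y < g (n + 1) := by
    intro n
    obtain ⟨y, hy, h2, h3⟩ := hcon n (g (n + 1) - g n) (sub_pos.2 (hg (Nat.lt_succ_self n)))
    exact ⟨y, hy, h2, by linarith⟩
  choose y hy h2 h3 using h1
  obtain ⟨n, hn⟩ := hL y (strictMono_nat_of_lt_succ fun n => (h3 n).trans_le (h2 (n + 1)))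
  exact hn (hy n)

theorem acc_of_lctAcc (e : ℕ) (hlct : LctAcc (e + 1)) (Γ : Set ℝ) (h0 : ∀ γ ∈ Γ, 0 ≤ γ)
    (hΓ : Dcc Γ) :
    ∃ Γ' : Set ℝ, Acc Γ' ∧
      ∀ (k K : Type) [Field k] [IsAlgClosed k] [CharZero k] [Field K] [Algebra k K]
        (F : Frame k K (e + 1)) (I : Type) (p : I → Germ k K) (φ : I → K)
        (κ lam : I → (Kˣ →₀ ℝ)),
        (∀ i, (∀ a : k, φ i ≠ algebraMap k K a) ∧ Admissible (e + 1) (p i) (φ i) ∧
          CanCartier F (p i) (κ i) ∧ FolCartier F (p i) (φ i) (lam i) Γ) →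
        ilct F p φ κ lam ∈ Γ' := by
  obtain ⟨L, hL, hmem⟩ := hlct ({1} ∪ (Γ ∪ {x | x - 1 ∈ Γ})) (fun γ hγ => by
    rcases hγ with h | h | h
    · rw [Set.mem_singleton_iff.1 h]
      exact zero_le_one
    · exact h0 γ h
    · have h1 := h0 _ h
      linarith) ((Dcc.singleton 1).union (hΓ.union hΓ.add_one))
  refine ⟨{x | x = 0 ∨ x ∈ closureAbove {x | x = 1 ∨ x ∈ L}},
    (hL.insert 1).closureAbove.insert 0, ?_⟩
  intro k K _ _ _ _ _ F I p φ κ lam hyp
  have hmem1 : ∀ i (α : k), lct F (p i) (κ i) (mdiv (κ i) (lam i) (φ i) α) ∈ L := by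
    intro i α
    obtain ⟨h1, h2, h3, h4⟩ := hyp i
    refine hmem k K F (p i) (κ i) _ h3 fun v hv hX => ?_
    obtain ⟨m, hm, hb2⟩ := coeff_mdiv (lam := lam i) h1 h3 h2.reduced α hv hX
    obtain ⟨b, hb, hbm⟩ := h4 v hv hX m hm
    have hb2 : mult v (mdiv (κ i) (lam i) (φ i) α) = b ∨
        mult v (mdiv (κ i) (lam i) (φ i) α) = b + 1 := by
      have h5 : mult v (lam i) + m = b := by
        rw [hbm]
        ring
      rw [h5] at hb2
      rcases hb2 with ⟨-, h⟩ | ⟨-, h⟩
      · exact Or.inr h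
      · exact Or.inl h
    rcases hb with hb | hb
    · rcases hb2 with h5 | h5
      · left
        rw [h5, hb]
      · right
        left
        rw [h5, hb, zero_add]
        rfl
    · right
      right
      rcases hb2 with h5 | h5
      · left
        rw [h5]
        exact hb
      · right
        show mult v (mdiv (κ i) (lam i) (φ i) α) - 1 ∈ Γ
        rw [h5, add_sub_cancel_right]
        exact hb
  obtain ⟨S, hS⟩ : ∃ S : Set ℝ, S = {t : ℝ | 0 ≤ t ∧ t ≤ 1 ∧
      ∀ i (α : k), PairLc F (p i) (κ i) (mdiv (κ i) (lam i) (φ i) α) t} := ⟨_, rfl⟩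
  have hilct : ilct F p φ κ lam = sSup S := by
    unfold ilct
    congr 1
    ext t
    rw [hS]
    constructor
    · rintro ⟨ht0, ht1, h⟩
      exact ⟨ht0, ht1, fun i α => (lc_iff F (p i) (hyp i).1 (κ i) (lam i) ht0).1 (h i) α⟩
    · rintro ⟨ht0, ht1, h⟩
      exact ⟨ht0, ht1, fun i => (lc_iff F (p i) (hyp i).1 (κ i) (lam i) ht0).2 (h i)⟩
  rw [hilct]
  rcases S.eq_empty_or_nonempty with hS0 | ⟨s, hs⟩
  · left
    rw [hS0, Real.sSup_empty]
  right
  have hS1 : BddAbove S := ⟨1, fun x hx => by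
    rw [hS] at hx
    exact hx.2.1⟩
  have hsx : s ≤ sSup S := le_csSup hS1 hs
  have hx1 : sSup S ≤ 1 := csSup_le ⟨s, hs⟩ fun x hx => by
    rw [hS] at hx
    exact hx.2.1
  have hs' := hs
  rw [hS] at hs'
  obtain ⟨hs0, hs1, hsl⟩ := hs'
  intro ε hε
  rcases hx1.eq_or_lt with h1 | h1
  · exact ⟨1, Or.inl rfl, hx1, by linarith⟩
  · obtain ⟨t, ht⟩ : ∃ t, t = min 1 (sSup S + ε / 2) := ⟨_, rfl⟩
    have ht1 : t ≤ 1 := by
      rw [ht]
      exact min_le_left _ _
    have ht2 : t ≤ sSup S + ε / 2 := by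
      rw [ht]
      exact min_le_right _ _
    have ht3 : sSup S < t := by
      rw [ht]
      exact lt_min h1 (by linarith)
    have ht4 : t ∉ S := fun h => absurd (le_csSup hS1 h) (not_le.2 ht3)
    rw [hS] at ht4
    have ht5 : ∃ i, ∃ α : k, lct F (p i) (κ i) (mdiv (κ i) (lam i) (φ i) α) < t := by
      by_contra hcon
      push Not at hcon
      exact ht4 ⟨by linarith, ht1, fun i α =>
        pairLc_of_le hs0 hs1 (hsl i α) (by linarith) (hcon i α)⟩
    obtain ⟨i, α, hiα⟩ := ht5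
    refine ⟨_, Or.inr (hmem1 i α), ?_, by linarith⟩
    refine csSup_le ⟨s, hs⟩ fun x hx => ?_
    rw [hS] at hx
    exact le_csSup ⟨1, fun y hy => hy.2.1⟩ ⟨hx.1, hx.2.1, hx.2.2 i α⟩

end Pool.Agent.H72Pen
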